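import Mathlib

/-!
# Constant or pairwise distinct coordinates
-/

namespace Pool.Agent.Helper29.T4

open Finset

/-- one function: constant or injective on a subset of size `k` -/
theorem exists_const_or_inj {α β : Type*} [DecidableEq α] [DecidableEq β] (S : Finset α) (g : α → β)
    (k : ℕ) (hS : k * k ≤ S.card) :
    ∃ T ⊆ S, T.card = k ∧ ((∀ x ∈ T, ∀ y ∈ T, g x = g y) ∨ Set.InjOn g (T : Set α)) := by
  rcases Nat.eq_zero_or_pos k with h0 | h0
  · subst h0
    exact ⟨∅, Finset.empty_subset _, rfl, Or.inl (by simp)⟩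
  by_cases h : ∃ b, k ≤ (S.filter (fun x => g x = b)).card
  · obtain ⟨b, hb⟩ := h
    obtain ⟨T, hT, hTc⟩ := Finset.exists_subset_card_eq hb
    refine ⟨T, hT.trans (Finset.filter_subset _ _), hTc, Or.inl ?_⟩
    intro x hx y hy
    rw [(Finset.mem_filter.mp (hT hx)).2, (Finset.mem_filter.mp (hT hy)).2]
  · push Not at h
    have h1 : S.card ≤ (S.image g).card * (k - 1) := by
      have h2 := Finset.card_eq_sum_card_image g S
      rw [h2]
      calc ∑ b ∈ S.image g, (S.filter (fun x => g x = b)).card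
          ≤ ∑ _b ∈ S.image g, (k - 1) := Finset.sum_le_sum (fun b _ => by
            have := h b
            omega)
        _ = (S.image g).card * (k - 1) := by rw [Finset.sum_const, smul_eq_mul]
    have h2 : k ≤ (S.image g).card := by
      by_contra h3
      push Not at h3
      have h4 : (S.image g).card * (k - 1) ≤ (k - 1) * (k - 1) :=
        Nat.mul_le_mul_right _ (by omega)
      have h5 : (k - 1) * (k - 1) < k * k := by
        have : k - 1 < k := by omega
        nlinarith
      omega
    obtain ⟨B, hB, hBc⟩ := Finset.exists_subset_card_eq h2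
    have h3 : ∀ b ∈ B, ∃ x ∈ S, g x = b := fun b hb => Finset.mem_image.mp (hB hb)
    have hne : Nonempty α := by
      have h5 : 0 < S.card := lt_of_lt_of_le (Nat.mul_pos h0 h0) hS
      obtain ⟨x, _⟩ := Finset.card_pos.mp h5
      exact ⟨x⟩
    choose! f hf using h3
    have hinj : Set.InjOn f (B : Set β) := by
      intro b hb c hc hbc
      rw [← (hf b hb).2, ← (hf c hc).2, hbc]
    refine ⟨B.image f, ?_, ?_, Or.inr ?_⟩
    · intro x hx
      obtain ⟨b, hb, rfl⟩ := Finset.mem_image.mp hx
      exact (hf b hb).1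
    · rw [Finset.card_image_of_injOn hinj, hBc]
    · intro x hx y hy hxy
      obtain ⟨b, hb, rfl⟩ := Finset.mem_image.mp (Finset.mem_coe.mp hx)
      obtain ⟨c, hc, rfl⟩ := Finset.mem_image.mp (Finset.mem_coe.mp hy)
      rw [(hf b hb).2, (hf c hc).2] at hxy
      rw [hxy]

/-- finitely many functions -/
theorem exists_pattern {ι α β : Type*} [DecidableEq α] [DecidableEq β] (I : Finset ι)
    (g : ι → α → β) (k : ℕ) (hk : 1 ≤ k) (S : Finset α) (hS : k ^ 2 ^ I.card ≤ S.card) :
    ∃ T ⊆ S, T.card = k ∧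
      ∀ i ∈ I, (∀ x ∈ T, ∀ y ∈ T, g i x = g i y) ∨ Set.InjOn (g i) (T : Set α) := by
  classical
  induction I using Finset.induction_on generalizing S with
  | empty =>
    simp only [Finset.card_empty, pow_zero, pow_one] at hS
    obtain ⟨T, hT, hTc⟩ := Finset.exists_subset_card_eq hS
    exact ⟨T, hT, hTc, by simp⟩
  | insert i I hi ih =>
    rw [Finset.card_insert_of_notMem hi, pow_succ, pow_mul, pow_two] at hS
    obtain ⟨T₁, hT₁, hc₁, h₁⟩ := exists_const_or_inj S (g i) (k ^ 2 ^ I.card) hS
    obtain ⟨T, hT, hc, h⟩ := ih T₁ hc₁.ge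
    refine ⟨T, hT.trans hT₁, hc, ?_⟩
    intro j hj
    rcases Finset.mem_insert.mp hj with rfl | hj
    · rcases h₁ with h₁ | h₁
      · exact Or.inl (fun x hx y hy => h₁ x (hT hx) y (hT hy))
      · exact Or.inr (h₁.mono (fun x hx => hT hx))
    · exact h j hj

end Pool.Agent.Helper29.T4
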