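import Mathlib

/-!
# Union bound over families of hits with disjoint fresh keys
-/

namespace Pool.Agent.Helper29.T4

open Finset

variable {κ : Type*} [Fintype κ] [DecidableEq κ]

/-- the finite product space -/
def Om (M : κ → ℕ) : Finset (κ → ℕ) := Fintype.piFinset (fun k => Finset.range (M k))

theorem card_Om (M : κ → ℕ) : (Om M).card = ∏ k, M k := by
  rw [Om, Fintype.card_piFinset]
  simp

theorem pin_card (M : κ → ℕ) (K : Finset κ) (v : κ → ℕ) :
    ((Om M).filter (fun r => ∀ k ∈ K, r k = v k)).card * ∏ k ∈ K, M k ≤ (Om M).card := by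
  have h1 : ((Om M).filter (fun r => ∀ k ∈ K, r k = v k)).card ≤
      ∏ k ∈ Finset.univ \ K, M k := by
    have h2 : ((Om M).filter (fun r => ∀ k ∈ K, r k = v k)) ⊆
        Fintype.piFinset (fun k => if k ∈ K then {v k} else Finset.range (M k)) := by
      intro r hr
      rw [Finset.mem_filter, Om, Fintype.mem_piFinset] at hr
      rw [Fintype.mem_piFinset]
      intro k
      by_cases hk : k ∈ K
      · rw [if_pos hk, Finset.mem_singleton]
        exact hr.2 k hk
      · rw [if_neg hk]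
        exact hr.1 k
    refine (Finset.card_le_card h2).trans ?_
    rw [Fintype.card_piFinset]
    rw [← Finset.prod_sdiff (Finset.subset_univ K)]
    have h3 : ∏ x ∈ K, (if x ∈ K then ({v x} : Finset ℕ) else Finset.range (M x)).card = 1 := by
      apply Finset.prod_eq_one
      intro x hx
      rw [if_pos hx, Finset.card_singleton]
    rw [h3, mul_one]
    apply le_of_eq
    apply Finset.prod_congr rfl
    intro x hx
    rw [if_neg (Finset.mem_sdiff.mp hx).2, Finset.card_range]
  rw [card_Om, ← Finset.prod_sdiff (Finset.subset_univ K)]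
  exact Nat.mul_le_mul_right _ h1

theorem pin_real (M : κ → ℕ) (hM : ∀ k, 0 < M k) (K : Finset κ) (v : κ → ℕ) :
    (((Om M).filter (fun r => ∀ k ∈ K, r k = v k)).card : ℝ) ≤
      (Om M).card * ∏ k ∈ K, ((M k : ℝ))⁻¹ := by
  have h := pin_card M K v
  have hpos : (0 : ℝ) < ∏ k ∈ K, (M k : ℝ) :=
    Finset.prod_pos (fun k _ => by exact_mod_cast hM k)
  rw [Finset.prod_inv_distrib, ← div_eq_mul_inv, le_div_iff₀ hpos]
  exact_mod_cast h

open Classical in
/-- union bound over families of `m + 1` hits which are compatible with each other and have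
disjoint fresh keys; `Q` bounds the expected number of hits compatible with a given one -/
theorem tuple_bound_w {δ : Type*} (M : κ → ℕ) (hM : ∀ k, 0 < M k) (Y : Finset δ)
    (hit : δ → (κ → ℕ) → Prop) (fk : δ → Finset κ) (vl : δ → κ → ℕ)
    (hv : ∀ y ∈ Y, ∀ r ∈ Om M, hit y r → ∀ k ∈ fk y, r k = vl y k)
    (compat : δ → δ → Prop) (Q : ℝ)
    (hQ : ∀ y ∈ Y, ∑ z ∈ Y.filter (compat y), ∏ k ∈ fk z, ((M k : ℝ))⁻¹ ≤ Q) (m : ℕ) :
    (((Om M).filter (fun r => ∃ T ⊆ Y, T.card = m + 1 ∧ (∀ y ∈ T, hit y r) ∧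
        (∀ y ∈ T, ∀ z ∈ T, compat y z) ∧
        (∀ y ∈ T, ∀ z ∈ T, y ≠ z → Disjoint (fk y) (fk z)))).card : ℝ) ≤
      (Om M).card * (Y.card * Q ^ m) := by
  classical
  have hcov : ((Om M).filter (fun r => ∃ T ⊆ Y, T.card = m + 1 ∧ (∀ y ∈ T, hit y r) ∧
        (∀ y ∈ T, ∀ z ∈ T, compat y z) ∧
        (∀ y ∈ T, ∀ z ∈ T, y ≠ z → Disjoint (fk y) (fk z)))) ⊆
      Y.biUnion (fun y => (Fintype.piFinset (fun _ : Fin m => Y.filter (compat y))).biUnion
        (fun g => (Om M).filter (fun r => (∀ i j, i ≠ j → Disjoint (fk (g i)) (fk (g j))) ∧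
          ∀ i, ∀ k ∈ fk (g i), r k = vl (g i) k))) := by
    intro r hr
    rw [Finset.mem_filter] at hr
    obtain ⟨hrΩ, T, hTY, hTc, hhit, hcomp, hdis⟩ := hr
    have hTne : T.Nonempty := Finset.card_pos.mp (by omega)
    obtain ⟨y, hy⟩ := hTne
    have hc : (T.erase y).card = m := by
      rw [Finset.card_erase_of_mem hy, hTc]
      rfl
    let e := (T.erase y).equivFinOfCardEq hc
    have hmem : ∀ i : Fin m, ((e.symm i : (T.erase y : Finset δ)) : δ) ∈ T := fun i =>
      Finset.mem_of_mem_erase (e.symm i).2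
    rw [Finset.mem_biUnion]
    refine ⟨y, hTY hy, ?_⟩
    rw [Finset.mem_biUnion]
    refine ⟨fun i => (e.symm i : δ), ?_, ?_⟩
    · rw [Fintype.mem_piFinset]
      intro i
      rw [Finset.mem_filter]
      exact ⟨hTY (hmem i), hcomp y hy _ (hmem i)⟩
    · rw [Finset.mem_filter]
      refine ⟨hrΩ, ?_, ?_⟩
      · intro i j hij
        apply hdis _ (hmem i) _ (hmem j)
        intro h
        apply hij
        exact e.symm.injective (Subtype.ext h)
      · intro i k hk
        exact hv _ (hTY (hmem i)) r hrΩ (hhit _ (hmem i)) k hk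
  have hone : ∀ y ∈ Y, ∀ g ∈ Fintype.piFinset (fun _ : Fin m => Y.filter (compat y)),
      (((Om M).filter (fun r => (∀ i j, i ≠ j → Disjoint (fk (g i)) (fk (g j))) ∧
          ∀ i, ∀ k ∈ fk (g i), r k = vl (g i) k)).card : ℝ) ≤
        (Om M).card * ∏ i, ∏ k ∈ fk (g i), ((M k : ℝ))⁻¹ := by
    intro y _ g hg
    by_cases hd : ∀ i j, i ≠ j → Disjoint (fk (g i)) (fk (g j))
    · -- the common value function
      let v : κ → ℕ := fun k => if h : ∃ i, k ∈ fk (g i) then vl (g h.choose) k else 0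
      have hsub : ((Om M).filter (fun r => (∀ i j, i ≠ j → Disjoint (fk (g i)) (fk (g j))) ∧
          ∀ i, ∀ k ∈ fk (g i), r k = vl (g i) k)) ⊆
          (Om M).filter (fun r => ∀ k ∈ Finset.univ.biUnion (fun i => fk (g i)), r k = v k) := by
        intro r hr
        rw [Finset.mem_filter] at hr ⊢
        refine ⟨hr.1, ?_⟩
        intro k hk
        rw [Finset.mem_biUnion] at hk
        obtain ⟨i, _, hi⟩ := hk
        have hex : ∃ i, k ∈ fk (g i) := ⟨i, hi⟩
        simp only [v, dif_pos hex]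
        exact hr.2.2 _ k hex.choose_spec
      refine (Nat.cast_le.mpr (Finset.card_le_card hsub)).trans ?_
      refine (pin_real M hM _ v).trans ?_
      apply mul_le_mul_of_nonneg_left _ (Nat.cast_nonneg _)
      rw [Finset.prod_biUnion (by
        intro i _ j _ hij
        exact hd i j hij)]
    · have hemp : ((Om M).filter (fun r => (∀ i j, i ≠ j → Disjoint (fk (g i)) (fk (g j))) ∧
          ∀ i, ∀ k ∈ fk (g i), r k = vl (g i) k)) = ∅ := by
        apply Finset.filter_false_of_mem
        intro r _ h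
        exact hd h.1
      rw [hemp]
      simp only [Finset.card_empty, Nat.cast_zero]
      apply mul_nonneg (Nat.cast_nonneg _)
      exact Finset.prod_nonneg (fun i _ => Finset.prod_nonneg
        (fun k _ => inv_nonneg.mpr (Nat.cast_nonneg _)))
  have hnn : ∀ y : δ, 0 ≤ ∏ k ∈ fk y, ((M k : ℝ))⁻¹ := fun y =>
    Finset.prod_nonneg (fun k _ => inv_nonneg.mpr (Nat.cast_nonneg _))
  calc _ ≤ ((Y.biUnion (fun y => (Fintype.piFinset (fun _ : Fin m => Y.filter (compat y))).biUnion
        (fun g => (Om M).filter (fun r => (∀ i j, i ≠ j → Disjoint (fk (g i)) (fk (g j))) ∧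
          ∀ i, ∀ k ∈ fk (g i), r k = vl (g i) k)))).card : ℝ) :=
        Nat.cast_le.mpr (Finset.card_le_card hcov)
    _ ≤ ∑ y ∈ Y, ∑ g ∈ Fintype.piFinset (fun _ : Fin m => Y.filter (compat y)),
        (((Om M).filter (fun r => (∀ i j, i ≠ j → Disjoint (fk (g i)) (fk (g j))) ∧
          ∀ i, ∀ k ∈ fk (g i), r k = vl (g i) k)).card : ℝ) := by
        have h1 : (Y.biUnion (fun y => (Fintype.piFinset
            (fun _ : Fin m => Y.filter (compat y))).biUnion
            (fun g => (Om M).filter (fun r => (∀ i j, i ≠ j → Disjoint (fk (g i)) (fk (g j))) ∧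
          ∀ i, ∀ k ∈ fk (g i), r k = vl (g i) k)))).card ≤
          ∑ y ∈ Y, ∑ g ∈ Fintype.piFinset (fun _ : Fin m => Y.filter (compat y)),
        ((Om M).filter (fun r => (∀ i j, i ≠ j → Disjoint (fk (g i)) (fk (g j))) ∧
          ∀ i, ∀ k ∈ fk (g i), r k = vl (g i) k)).card :=
          Finset.card_biUnion_le.trans (Finset.sum_le_sum (fun y _ => Finset.card_biUnion_le))
        exact_mod_cast h1
    _ ≤ ∑ y ∈ Y, ∑ g ∈ Fintype.piFinset (fun _ : Fin m => Y.filter (compat y)),
        ((Om M).card : ℝ) * ∏ i, ∏ k ∈ fk (g i), ((M k : ℝ))⁻¹ :=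
        Finset.sum_le_sum (fun y hy => Finset.sum_le_sum (fun g hg => hone y hy g hg))
    _ = ∑ y ∈ Y, ((Om M).card : ℝ) *
          (∑ z ∈ Y.filter (compat y), ∏ k ∈ fk z, ((M k : ℝ))⁻¹) ^ m := by
        apply Finset.sum_congr rfl
        intro y _
        rw [← Finset.mul_sum]
        congr 1
        rw [← Fin.prod_const, Finset.prod_univ_sum]
    _ ≤ ∑ _y ∈ Y, ((Om M).card : ℝ) * Q ^ m := by
        apply Finset.sum_le_sum
        intro y hy
        apply mul_le_mul_of_nonneg_left _ (Nat.cast_nonneg _)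
        exact pow_le_pow_left₀ (Finset.sum_nonneg (fun z _ => hnn z)) (hQ y hy) m
    _ = (Om M).card * (Y.card * Q ^ m) := by
        rw [Finset.sum_const, nsmul_eq_mul]
        ring

end Pool.Agent.Helper29.T4
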