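import Pool.Agent.Helper29.T4.Snd
import Pool.Agent.Helper98.T4.Void

/-!
# T4', block F: from the alternative of the table to void or rare patterns
-/

namespace Pool.Agent.Helper29.T4

open Finset Pool.Agent.Helper27.T4 Pool.Agent.Helper5.ET Pool.Agent.Helper25.T4
  Pool.Agent.Helper98.T4 Pool.Agent.Helper36.T4

theorem fk_cases (K : ℕ) :
    (fk K = 0 ∧ fk (K + 1) = 1 ∧ fk (K + 2) = 2) ∨ (fk K = 1 ∧ fk (K + 1) = 2 ∧ fk (K + 2) = 0) ∨
      (fk K = 2 ∧ fk (K + 1) = 0 ∧ fk (K + 2) = 1) := by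
  have h : K % 3 = 0 ∨ K % 3 = 1 ∨ K % 3 = 2 := by omega
  rcases h with h | h | h
  · refine Or.inl ⟨Fin.ext ?_, Fin.ext ?_, Fin.ext ?_⟩
    · show K % 3 = 0
      omega
    · show (K + 1) % 3 = 1
      omega
    · show (K + 2) % 3 = 2
      omega
  · refine Or.inr (Or.inl ⟨Fin.ext ?_, Fin.ext ?_, Fin.ext ?_⟩)
    · show K % 3 = 1
      omega
    · show (K + 1) % 3 = 2
      omega
    · show (K + 2) % 3 = 0
      omega
  · refine Or.inr (Or.inr ⟨Fin.ext ?_, Fin.ext ?_, Fin.ext ?_⟩)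
    · show K % 3 = 2
      omega
    · show (K + 1) % 3 = 0
      omega
    · show (K + 2) % 3 = 1
      omega

theorem sum_fk (K : ℕ) (G : Fin 3 → ℝ) :
    ∑ f, G f = G (fk K) + G (fk (K + 1)) + G (fk (K + 2)) := by
  rw [Fin.sum_univ_three]
  rcases fk_cases K with ⟨h0, h1, h2⟩ | ⟨h0, h1, h2⟩ | ⟨h0, h1, h2⟩ <;> rw [h0, h1, h2] <;> ring

/-- index relative to `K` -/
def ix (K : ℕ) (f : Fin 3) : ℕ := (f.val + 3 - K % 3) % 3

theorem ix_lt (K : ℕ) (f : Fin 3) : ix K f < 3 := Nat.mod_lt _ (by norm_num)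

theorem fk_ix (K : ℕ) (f : Fin 3) : fk (K + ix K f) = f := by
  apply Fin.ext
  show (K + (f.val + 3 - K % 3) % 3) % 3 = f.val
  have := f.isLt
  omega

theorem ix_fk (K i : ℕ) (hi : i < 3) : ix K (fk (K + i)) = i := by
  show ((K + i) % 3 + 3 - K % 3) % 3 = i
  omega

/-- the modes by number -/
def mo (m : ℕ) : Mo :=
  match m with
  | 0 => Mo.free
  | 1 => Mo.mA
  | 2 => Mo.mB
  | 3 => Mo.afB
  | 4 => Mo.afA
  | 5 => Mo.half
  | 6 => Mo.aft
  | _ => Mo.prod

theorem okM_conv {m : ℕ} {f g : Bool} {bA bB : Prop} (hA : f = false → bA)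
    (hB : g = false → bB) (h : Tab.okM m f g = true) : okM bA bB (mo m) := by
  match m with
  | 0 => exact trivial
  | 1 => exact hA (by simpa [Tab.okM] using h)
  | 2 => exact hB (by simpa [Tab.okM] using h)
  | 3 => exact hB (by simpa [Tab.okM] using h)
  | 4 => exact hA (by simpa [Tab.okM] using h)
  | 5 =>
    simp only [Tab.okM, Bool.and_eq_true, Bool.not_eq_true'] at h
    exact ⟨hA h.1, hB h.2⟩
  | 6 =>
    simp only [Tab.okM, Bool.and_eq_true, Bool.not_eq_true'] at h
    exact ⟨hA h.1, hB h.2⟩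
  | 7 =>
    simp only [Tab.okM, Bool.and_eq_true, Bool.not_eq_true'] at h
    exact ⟨hA h.1, hB h.2⟩
  | (k + 8) => exact absurd h (by simp [Tab.okM])

theorem te_conv {m : ℕ} {c c2 f g : Bool} {L L' : ℝ} (h : Tab.okM m f g = true)
    (h7 : m = 7 → c = false → c2 = true → 2 * L' ≤ L) :
    te c c2 L L' (mo m) - (if f then L else 0) - (if g then L' else 0) =
      ((Tab.c1 m c c2 f g : ℤ) * L + (Tab.c2' m c c2 f g : ℤ) * L') / 2 := by
  match m with
  | 0 => cases c <;> cases c2 <;> cases f <;> cases g <;>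
      simp [te, mo, Tab.c1, Tab.c2', Tab.b2z] <;> ring
  | 1 => cases c <;> cases c2 <;> cases f <;> cases g <;>
      simp [te, mo, Tab.c1, Tab.c2', Tab.b2z] <;> ring
  | 2 => cases c <;> cases c2 <;> cases f <;> cases g <;>
      simp [te, mo, Tab.c1, Tab.c2', Tab.b2z] <;> ring
  | 3 =>
    have hg : g = false := by simpa [Tab.okM] using h
    subst hg
    cases c <;> cases c2 <;> cases f <;> simp [te, mo, Tab.c1, Tab.c2', Tab.b2z] <;> ring
  | 4 =>
    have hf : f = false := by simpa [Tab.okM] using h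
    subst hf
    cases c <;> cases c2 <;> cases g <;> simp [te, mo, Tab.c1, Tab.c2', Tab.b2z] <;> ring
  | 5 =>
    simp only [Tab.okM, Bool.and_eq_true, Bool.not_eq_true'] at h
    obtain ⟨hf, hg⟩ := h
    subst hf
    subst hg
    cases c <;> cases c2 <;> simp [te, mo, Tab.c1, Tab.c2', Tab.b2z]
  | 6 =>
    simp only [Tab.okM, Bool.and_eq_true, Bool.not_eq_true'] at h
    obtain ⟨hf, hg⟩ := h
    subst hf
    subst hg
    cases c <;> cases c2 <;> simp [te, mo, Tab.c1, Tab.c2']
  | 7 =>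
    simp only [Tab.okM, Bool.and_eq_true, Bool.not_eq_true'] at h
    obtain ⟨hf, hg⟩ := h
    subst hf
    subst hg
    cases c
    · cases c2
      · simp [te, mo, Tab.c1, Tab.c2', Tab.b2z]
        ring
      · have h8 := h7 rfl rfl rfl
        have h9 : max 0 (L / 2 - L') = L / 2 - L' := max_eq_right (by linarith)
        simp [te, mo, Tab.c1, Tab.c2', Tab.b2z, h9]
        ring
    · cases c2 <;> simp [te, mo, Tab.c1, Tab.c2', Tab.b2z]
  | (k + 8) => exact absurd h (by simp [Tab.okM])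

theorem me_conv {m : ℕ} {f g : Bool} {L L' : ℝ} (h : Tab.okM m f g = true) :
    me L L' (mo m) = (Tab.m1 m : ℤ) * L + (Tab.m2 m : ℤ) * L' := by
  match m with
  | 0 => simp [me, mo, Tab.m1, Tab.m2]
  | 1 => simp [me, mo, Tab.m1, Tab.m2]
  | 2 => simp [me, mo, Tab.m1, Tab.m2]
  | 3 => simp [me, mo, Tab.m1, Tab.m2]
  | 4 => simp [me, mo, Tab.m1, Tab.m2]
  | 5 => simp [me, mo, Tab.m1, Tab.m2]
  | 6 => simp [me, mo, Tab.m1, Tab.m2]
  | 7 => simp [me, mo, Tab.m1, Tab.m2]
  | (k + 8) => exact absurd h (by simp [Tab.okM])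

theorem al_nonneg (f : Fin 3) (j : ℕ) : 0 ≤ al f j := by
  unfold al
  exact mul_nonneg (Nat.cast_nonneg _)
    (Real.log_nonneg (by exact_mod_cast (pr_prime f).one_lt.le))

theorem al_mono (f : Fin 3) {i j : ℕ} (h : i ≤ j) : al f i ≤ al f j := by
  unfold al
  apply mul_le_mul_of_nonneg_right
  · exact_mod_cast Pool.Agent.Helper25.T4.cnt_mono f h
  · exact Real.log_nonneg (by exact_mod_cast (pr_prime f).one_lt.le)

theorem cnt_of_al {f : Fin 3} {i j : ℕ} (h : al f i = al f j) : cnt f i = cnt f j := by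
  unfold al at h
  have hl : 0 < Real.log (pr f) := Real.log_pos (by exact_mod_cast (pr_prime f).one_lt)
  exact_mod_cast mul_right_cancel₀ hl.ne' h

theorem static_al {d i : ℕ} (h : Tab.st d i = true) (hi : i < 3) (W : ℕ → ℝ) (x y : ℝ) :
    Tab.lamR d W x i = Tab.lamS d W y i := by
  unfold Tab.st at h
  simp only [Bool.or_eq_true, Bool.and_eq_true, Bool.not_eq_true'] at h
  rcases h with ⟨h1, h2⟩ | ⟨h1, h2⟩
  · have hd : d = 0 := Nat.eq_of_beq_eq_true h1
    subst hd
    have h3 : i ≠ 0 := by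
      rintro rfl
      exact absurd h2 (by decide)
    unfold Tab.lamS Tab.lamR
    interval_cases i
    · exact absurd rfl h3
    · norm_num
    · norm_num
  · have hd : d = 1 := Nat.eq_of_beq_eq_true h1
    have hi' : i = 1 := Nat.eq_of_beq_eq_true h2
    subst hd
    subst hi'
    unfold Tab.lamS Tab.lamR
    norm_num

/-- from the alternative of the table to void or rare patterns -/
theorem conv {s s' K d ph ph2 c c2 : ℕ} {W : ℕ → ℝ} {x y : ℝ} (hss : sl s' ≤ sl s) (n : ℕ)
    {C C' : Finset (Fin 3)}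
    (hL : ∀ i < 3, al (fk (K + i)) (sl s) = Tab.lamR d W x i)
    (hL' : ∀ i < 3, al (fk (K + i)) (sl s') = Tab.lamS d W y i)
    (hF : ∀ i < 3, (fk (K + i) ∈ frs (sl s) C ↔ Tab.fr ph c i = true))
    (hF' : ∀ i < 3, (fk (K + i) ∈ frs (sl s') C' ↔ Tab.fr2 d ph2 c2 i = true))
    (hb : ∀ i < 3, (Tab.bit c i = true ↔ fk (K + i) ∈ C))
    (hb' : ∀ i < 3, (Tab.bit c2 i = true ↔ fk (K + i) ∈ C'))
    (v v' w cc : ℝ) (hv : (vhi s : ℝ) ≤ Real.exp v) (hv' : (vhi s' : ℝ) ≤ Real.exp v')
    (hw : Real.log (Nj (sk (s' + 1))) ≤ ∑ f, al f (sl s') + w)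
    (h0 : 0 ≤ v) (h0' : 0 ≤ v') (hw0 : 0 ≤ w) (hcc0 : 0 ≤ cc)
    (hcc : 146 + v + v' + w + cc ≤ (1 / 100) * (∑ f, al f (sl s) - ∑ f, al f (sl s')))
    (hA : Tab.Alt d ph ph2 c c2 W x y) :
    VoidC s s' n (10 ^ 7) C C' ∨ RareC s s' n (Real.exp (-cc)) C C' := by
  have hFn : ∀ i < 3, Tab.fr ph c i = false → fk (K + i) ∉ frs (sl s) C := by
    intro i hi h h1
    rw [(hF i hi).mp h1] at h
    exact absurd h (by decide)
  have hFn' : ∀ i < 3, Tab.fr2 d ph2 c2 i = false → fk (K + i) ∉ frs (sl s') C' := by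
    intro i hi h h1
    rw [(hF' i hi).mp h1] at h
    exact absurd h (by decide)
  have hbn : ∀ i < 3, Tab.bit c i = false → fk (K + i) ∉ C := by
    intro i hi h h1
    rw [(hb i hi).mpr h1] at h
    exact absurd h (by decide)
  have hbn' : ∀ i < 3, Tab.bit c2 i = false → fk (K + i) ∉ C' := by
    intro i hi h h1
    rw [(hb' i hi).mpr h1] at h
    exact absurd h (by decide)
  have hsL := sum_fk K (fun f => al f (sl s))
  have hsL' := sum_fk K (fun f => al f (sl s'))
  have e0 := hL 0 (by norm_num)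
  have e1 := hL 1 (by norm_num)
  have e2 := hL 2 (by norm_num)
  have e0' := hL' 0 (by norm_num)
  have e1' := hL' 1 (by norm_num)
  have e2' := hL' 2 (by norm_num)
  rw [add_zero] at e0 e0'
  rw [e0, e1, e2] at hsL
  rw [e0', e1', e2'] at hsL'
  rcases hA with ⟨i, hi, h1, h2, h3, h4⟩ | ⟨i, hi, h1, h2, h3, h4, h5⟩ | ⟨i, hi, h1, h2, h3, h4, h5⟩ |
    h | ⟨e, hM, hT⟩
  · exact Or.inl (void1 hss _ (hFn i hi h1) (hFn' i hi h2) ((hb i hi).mp h3) (hbn' i hi h4))
  · refine Or.inl (void2 hss _ (hFn i hi h1) (hFn' i hi h2) (hbn i hi h3) ((hb' i hi).mp h4) ?_)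
    rw [hL i hi, hL' i hi]
    exact h5
  · refine Or.inl (void3 hss _ (hFn i hi h1) (hFn' i hi h2) (hbn i hi h3) (hbn' i hi h4) ?_)
    apply cnt_of_al
    rw [hL i hi, hL' i hi]
    exact static_al h5 hi W x y
  · refine Or.inl ?_
    have hvo : VoidC s s' n 2 C C' := by
      apply void4
      have key : ∀ i < 3, (if fk (K + i) ∈ C ∧ fk (K + i) ∉ frs (sl s) C then
          al (fk (K + i)) (sl s)
          else if fk (K + i) ∈ C' ∧ fk (K + i) ∉ frs (sl s') C' then al (fk (K + i)) (sl s')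
          else 0) = (Tab.b2z (Tab.bit c i && !(Tab.fr ph c i)) : ℤ) * Tab.lamR d W x i +
          (Tab.b2z (!(Tab.bit c i && !(Tab.fr ph c i)) &&
            (Tab.bit c2 i && !(Tab.fr2 d ph2 c2 i))) : ℤ) * Tab.lamS d W y i := by
        intro i hi
        rw [hL i hi, hL' i hi]
        have a1 := hb i hi
        have a2 := hb' i hi
        have a3 := hF i hi
        have a4 := hF' i hi
        by_cases q1 : fk (K + i) ∈ C <;> by_cases q2 : fk (K + i) ∈ C' <;>
          by_cases q3 : fk (K + i) ∈ frs (sl s) C <;>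
          by_cases q4 : fk (K + i) ∈ frs (sl s') C' <;>
          · cases r1 : Tab.bit c i <;> cases r2 : Tab.bit c2 i <;>
              cases r3 : Tab.fr ph c i <;> cases r4 : Tab.fr2 d ph2 c2 i <;>
              simp_all [Tab.b2z]
      rw [sum_fk K]
      have k0 := key 0 (by norm_num)
      have k1 := key 1 (by norm_num)
      have k2 := key 2 (by norm_num)
      rw [add_zero] at k0
      rw [k0, k1, k2]
      unfold Tab.GG at h
      push_cast at h
      rw [hsL, hsL'] at hcc
      rw [hsL'] at hw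
      linarith
    intro T hT hc hP hi
    exact (hvo T hT hc hP hi).trans (by norm_num)
  · refine Or.inr ?_
    have hM' : ∀ f, Tab.okM (Tab.md e (ix K f)) (Tab.fr ph c (ix K f))
        (Tab.fr2 d ph2 c2 (ix K f)) = true := fun f => (hM _ (ix_lt K f)).1
    refine rareC_of_mode hss (fun f => mo (Tab.md e (ix K f))) ?_ v v'
      (∑ f, al f (sl s') + w) cc hv hv' ?_ ?_ n
    · intro f
      have h1 := hFn _ (ix_lt K f)
      have h2 := hFn' _ (ix_lt K f)
      rw [fk_ix] at h1 h2
      exact okM_conv h1 h2 (hM' f)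
    · have hpos : (0 : ℝ) < Nj (sk (s' + 1)) := by
        exact_mod_cast Pool.Agent.Helper25.T4.Nj_pos _
      rw [← Real.exp_log hpos]
      exact Real.exp_le_exp.mpr hw
    · -- the sums
      have hS1 : ∑ f ∈ frs (sl s) C, al f (sl s) ≤ ∑ f ∈ frs (sl s) C, al f (se s) :=
        Finset.sum_le_sum (fun f _ => al_mono f (sl_le_se s))
      have hS2 : ∑ f ∈ frs (sl s') C', al f (sl s') ≤ ∑ f ∈ frs (sl s') C', al f (se s') :=
        Finset.sum_le_sum (fun f _ => al_mono f (sl_le_se s'))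
      have hS1' : ∑ f ∈ frs (sl s) C, al f (sl s) =
          ∑ f, if f ∈ frs (sl s) C then al f (sl s) else 0 := by
        rw [← Finset.sum_filter]
        congr 1
        ext f
        simp
      have hS2' : ∑ f ∈ frs (sl s') C', al f (sl s') =
          ∑ f, if f ∈ frs (sl s') C' then al f (sl s') else 0 := by
        rw [← Finset.sum_filter]
        congr 1
        ext f
        simp
      have hdec : ∀ i < 3, decide (fk (K + i) ∈ C) = Tab.bit c i := by
        intro i hi
        have := hb i hi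
        by_cases q : fk (K + i) ∈ C
        · rw [decide_eq_true q, this.mpr q]
        · rw [decide_eq_false q]
          cases r : Tab.bit c i
          · rfl
          · exact absurd (this.mp r) q
      have hdec' : ∀ i < 3, decide (fk (K + i) ∈ C') = Tab.bit c2 i := by
        intro i hi
        have := hb' i hi
        by_cases q : fk (K + i) ∈ C'
        · rw [decide_eq_true q, this.mpr q]
        · rw [decide_eq_false q]
          cases r : Tab.bit c2 i
          · rfl
          · exact absurd (this.mp r) q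
      have hif : ∀ i < 3, ∀ a : ℝ, (if fk (K + i) ∈ frs (sl s) C then a else 0) =
          if Tab.fr ph c i = true then a else 0 := by
        intro i hi a
        by_cases q : fk (K + i) ∈ frs (sl s) C
        · rw [if_pos q, if_pos ((hF i hi).mp q)]
        · rw [if_neg q, if_neg (fun h => q ((hF i hi).mpr h))]
      have hif' : ∀ i < 3, ∀ a : ℝ, (if fk (K + i) ∈ frs (sl s') C' then a else 0) =
          if Tab.fr2 d ph2 c2 i = true then a else 0 := by
        intro i hi a
        by_cases q : fk (K + i) ∈ frs (sl s') C'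
        · rw [if_pos q, if_pos ((hF' i hi).mp q)]
        · rw [if_neg q, if_neg (fun h => q ((hF' i hi).mpr h))]
      have hte : ∀ i < 3, te (decide (fk (K + i) ∈ C)) (decide (fk (K + i) ∈ C'))
          (al (fk (K + i)) (sl s)) (al (fk (K + i)) (sl s')) (mo (Tab.md e (ix K (fk (K + i))))) -
          (if fk (K + i) ∈ frs (sl s) C then al (fk (K + i)) (sl s) else 0) -
          (if fk (K + i) ∈ frs (sl s') C' then al (fk (K + i)) (sl s') else 0) =
          ((Tab.c1 (Tab.md e i) (Tab.bit c i) (Tab.bit c2 i) (Tab.fr ph c i)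
            (Tab.fr2 d ph2 c2 i) : ℤ) * Tab.lamR d W x i +
            (Tab.c2' (Tab.md e i) (Tab.bit c i) (Tab.bit c2 i) (Tab.fr ph c i)
            (Tab.fr2 d ph2 c2 i) : ℤ) * Tab.lamS d W y i) / 2 := by
        intro i hi
        rw [ix_fk K i hi, hL i hi, hL' i hi, hdec i hi, hdec' i hi, hif i hi, hif' i hi]
        exact te_conv (hM i hi).1 (hM i hi).2
      have hme : ∀ i < 3, me (al (fk (K + i)) (sl s)) (al (fk (K + i)) (sl s'))
          (mo (Tab.md e (ix K (fk (K + i))))) =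
          (Tab.m1 (Tab.md e i) : ℤ) * Tab.lamR d W x i +
            (Tab.m2 (Tab.md e i) : ℤ) * Tab.lamS d W y i := by
        intro i hi
        rw [ix_fk K i hi, hL i hi, hL' i hi]
        exact me_conv (hM i hi).1
      have t0 := hte 0 (by norm_num)
      have t1 := hte 1 (by norm_num)
      have t2 := hte 2 (by norm_num)
      have n0 := hme 0 (by norm_num)
      have n1 := hme 1 (by norm_num)
      have n2 := hme 2 (by norm_num)
      rw [add_zero] at t0 n0
      have g0 := hT false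
      have g1 := hT true
      unfold Tab.GG Tab.fa Tab.fb at g0 g1
      simp only [Tab.b2z] at g0 g1
      push_cast at g0 g1
      have hsum := sum_fk K (fun f => te (decide (f ∈ C)) (decide (f ∈ C')) (al f (sl s))
        (al f (sl s')) (mo (Tab.md e (ix K f))))
      have hsumm := sum_fk K (fun f => me (al f (sl s)) (al f (sl s')) (mo (Tab.md e (ix K f))))
      have hsf := sum_fk K (fun f => if f ∈ frs (sl s) C then al f (sl s) else 0)
      have hsf' := sum_fk K (fun f => if f ∈ frs (sl s') C' then al f (sl s') else 0)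
      rw [hsL, hsL'] at hcc
      rw [n0, n1, n2] at hsumm
      rw [hsum, hsumm, hsL']
      rcases le_total (Tab.lamS d W y 0 + Tab.lamS d W y 1 + Tab.lamS d W y 2 + w -
        ((Tab.m1 (Tab.md e 0) : ℤ) * Tab.lamR d W x 0 + (Tab.m2 (Tab.md e 0) : ℤ) *
          Tab.lamS d W y 0 + ((Tab.m1 (Tab.md e 1) : ℤ) * Tab.lamR d W x 1 +
          (Tab.m2 (Tab.md e 1) : ℤ) * Tab.lamS d W y 1) + ((Tab.m1 (Tab.md e 2) : ℤ) *
          Tab.lamR d W x 2 + (Tab.m2 (Tab.md e 2) : ℤ) * Tab.lamS d W y 2))) 0 with hm | hm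
      · rw [max_eq_left hm]
        linarith
      · rw [max_eq_right hm]
        linarith

end Pool.Agent.Helper29.T4
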