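import Pool.Agent.Helper29.T4.Snd
import Pool.Agent.Helper29.T4.TabData

/-!
# T4', block F: the alternative for every pair of positions
-/

namespace Pool.Agent.Helper29.T4.Tab

theorem exists_blk {d ph ph2 : ℕ} (hd : d ≤ 4) (hph : ph < 3) (hph2 : ph2 < 3)
    (h : d = 0 → ph2 ≤ ph) : ∃ T, blk d ph ph2 T = true := by
  interval_cases d <;> interval_cases ph <;> interval_cases ph2
  · exact ⟨_, blk_0_0_0⟩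
  · exact absurd (h rfl) (by norm_num)
  · exact absurd (h rfl) (by norm_num)
  · exact ⟨_, blk_0_1_0⟩
  · exact ⟨_, blk_0_1_1⟩
  · exact absurd (h rfl) (by norm_num)
  · exact ⟨_, blk_0_2_0⟩
  · exact ⟨_, blk_0_2_1⟩
  · exact ⟨_, blk_0_2_2⟩
  · exact ⟨_, blk_1_0_0⟩
  · exact ⟨_, blk_1_0_1⟩
  · exact ⟨_, blk_1_0_2⟩
  · exact ⟨_, blk_1_1_0⟩
  · exact ⟨_, blk_1_1_1⟩
  · exact ⟨_, blk_1_1_2⟩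
  · exact ⟨_, blk_1_2_0⟩
  · exact ⟨_, blk_1_2_1⟩
  · exact ⟨_, blk_1_2_2⟩
  · exact ⟨_, blk_2_0_0⟩
  · exact ⟨_, blk_2_0_1⟩
  · exact ⟨_, blk_2_0_2⟩
  · exact ⟨_, blk_2_1_0⟩
  · exact ⟨_, blk_2_1_1⟩
  · exact ⟨_, blk_2_1_2⟩
  · exact ⟨_, blk_2_2_0⟩
  · exact ⟨_, blk_2_2_1⟩
  · exact ⟨_, blk_2_2_2⟩
  · exact ⟨_, blk_3_0_0⟩
  · exact ⟨_, blk_3_0_1⟩
  · exact ⟨_, blk_3_0_2⟩
  · exact ⟨_, blk_3_1_0⟩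
  · exact ⟨_, blk_3_1_1⟩
  · exact ⟨_, blk_3_1_2⟩
  · exact ⟨_, blk_3_2_0⟩
  · exact ⟨_, blk_3_2_1⟩
  · exact ⟨_, blk_3_2_2⟩
  · exact ⟨_, blk_4_0_0⟩
  · exact ⟨_, blk_4_0_1⟩
  · exact ⟨_, blk_4_0_2⟩
  · exact ⟨_, blk_4_1_0⟩
  · exact ⟨_, blk_4_1_1⟩
  · exact ⟨_, blk_4_1_2⟩
  · exact ⟨_, blk_4_2_0⟩
  · exact ⟨_, blk_4_2_1⟩
  · exact ⟨_, blk_4_2_2⟩

/-- the alternative -/
theorem alt_of_pos {d ph ph2 c c2 : ℕ} (hd : d ≤ 4) (hph : ph < 3) (hph2 : ph2 < 3)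
    (h0 : d = 0 → ph2 ≤ ph) (hc : c < 8) (hc2 : c2 < 8)
    (W : ℕ → ℝ) (u : ℝ) (hu : 0 ≤ u)
    (hW : ∀ t ≤ d + 3, |W t - u * wn d t| ≤ u * wn d t / 1000) (x y : ℝ)
    (hx0 : (p0 ph : ℝ) / 15 ≤ x) (hx1 : x ≤ (p1 ph : ℝ) / 15) (hy0 : (p0 ph2 : ℝ) / 15 ≤ y)
    (hy1 : y ≤ (p1 ph2 : ℝ) / 15) (hxy : d = 0 → ph = ph2 → y ≤ x) :
    Alt d ph ph2 c c2 W x y := by
  obtain ⟨T, hT⟩ := exists_blk hd hph hph2 h0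
  obtain ⟨e, he⟩ := blk_row hT hc hc2
  exact row_sound d ph ph2 c c2 e hd he W u hu hW x y hx0 hx1 hy0 hy1 hxy

end Pool.Agent.Helper29.T4.Tab
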