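import Pool.Agent.Helper29.T4.Modes

/-!
# The modes of one family
-/

namespace Pool.Agent.Helper29.T4

open Finset

/-- the possible pairs `(x, x')` of one family for a given `z`; `bA`: the component of `a` is not
fresh, `bB`: the component of `a'` is not fresh -/
def Dd (U U' : Finset ℕ) (bA bB : Prop) [Decidable bA] [Decidable bB] (lam lam' : ℕ → ℕ)
    (q q' r r' n : ℕ) (z : ℕ) : Finset (ℕ × ℕ) :=
  (U ×ˢ U').filter (fun x => (bA → z ≡ lam x.1 + r [MOD q]) ∧
    (bB → n ≡ z + lam' x.2 + r' [MOD q']))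

theorem mem_Dd {U U' : Finset ℕ} {bA bB : Prop} [Decidable bA] [Decidable bB] {lam lam' : ℕ → ℕ}
    {q q' r r' n z : ℕ} {x : ℕ × ℕ} : x ∈ Dd U U' bA bB lam lam' q q' r r' n z ↔
      x.1 ∈ U ∧ x.2 ∈ U' ∧ (bA → z ≡ lam x.1 + r [MOD q]) ∧
        (bB → n ≡ z + lam' x.2 + r' [MOD q']) := by
  rw [Dd, Finset.mem_filter, Finset.mem_product]
  tauto

variable (U U' : Finset ℕ) (bA bB : Prop) [Decidable bA] [Decidable bB] (lam lam' : ℕ → ℕ)
  (q q' r r' n : ℕ)

/-- everything counted, no condition used -/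
theorem loc_free : LocOK (Dd U U' bA bB lam lam' q q' r r' n) (U.card * U'.card) 1 1 := by
  refine ⟨id, ⟨U ×ˢ U', ?_, ?_⟩, ?_, ?_⟩
  · intro z x hx
    rw [mem_Dd] at hx
    rw [id, Finset.mem_product]
    exact ⟨hx.1, hx.2.1⟩
  · rw [Finset.card_product]
  · intro z b
    rw [Finset.card_le_one]
    intro x hx y hy
    rw [Finset.mem_filter] at hx hy
    rw [← id_eq x, ← id_eq y, hx.2, hy.2]
  · intro z z' x y _ _ _
    exact Nat.modEq_one

/-- both counted, the class of `z` from the side of `a` -/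
theorem loc_A (hA : bA) : LocOK (Dd U U' bA bB lam lam' q q' r r' n) (U.card * U'.card) 1 q := by
  refine ⟨id, ⟨U ×ˢ U', ?_, ?_⟩, ?_, ?_⟩
  · intro z x hx
    rw [mem_Dd] at hx
    rw [id, Finset.mem_product]
    exact ⟨hx.1, hx.2.1⟩
  · rw [Finset.card_product]
  · intro z b
    rw [Finset.card_le_one]
    intro x hx y hy
    rw [Finset.mem_filter] at hx hy
    rw [← id_eq x, ← id_eq y, hx.2, hy.2]
  · intro z z' x y hx hy hxy
    rw [mem_Dd] at hx hy
    have hxy' : x = y := hxy
    rw [← hxy'] at hy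
    exact (hx.2.2.1 hA).trans (hy.2.2.1 hA).symm

theorem modEq_of_add {n z z' m q : ℕ} (h : n ≡ z + m [MOD q]) (h' : n ≡ z' + m [MOD q]) :
    z ≡ z' [MOD q] :=
  Nat.ModEq.add_right_cancel' m (h.symm.trans h')

/-- both counted, the class of `z` from the side of `a'` -/
theorem loc_B (hB : bB) : LocOK (Dd U U' bA bB lam lam' q q' r r' n) (U.card * U'.card) 1 q' := by
  refine ⟨id, ⟨U ×ˢ U', ?_, ?_⟩, ?_, ?_⟩
  · intro z x hx
    rw [mem_Dd] at hx
    rw [id, Finset.mem_product]
    exact ⟨hx.1, hx.2.1⟩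
  · rw [Finset.card_product]
  · intro z b
    rw [Finset.card_le_one]
    intro x hx y hy
    rw [Finset.mem_filter] at hx hy
    rw [← id_eq x, ← id_eq y, hx.2, hy.2]
  · intro z z' x y hx hy hxy
    rw [mem_Dd] at hx hy
    have hxy' : x = y := hxy
    rw [← hxy'] at hy
    have h1 := hx.2.2.2 hB
    have h2 := hy.2.2.2 hB
    rw [add_assoc] at h1 h2
    exact modEq_of_add h1 h2

/-- `x` counted, `x'` determined by `z` -/
theorem loc_B_after (hB : bB) (K : ℕ)
    (hK : ∀ t, (U'.filter (fun x => lam' x ≡ t [MOD q'])).card ≤ K) :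
    LocOK (Dd U U' bA bB lam lam' q q' r r' n) U.card K 1 := by
  refine ⟨fun x => (x.1, 0), ⟨U.image (fun x => (x, 0)), ?_, ?_⟩, ?_, ?_⟩
  · intro z x hx
    rw [mem_Dd] at hx
    rw [Finset.mem_image]
    exact ⟨x.1, hx.1, rfl⟩
  · exact Finset.card_image_le
  · intro z b
    by_cases hne : ((Dd U U' bA bB lam lam' q q' r r' n z).filter
        (fun x => (x.1, 0) = b)).Nonempty
    · obtain ⟨y, hy⟩ := hne
      refine le_trans (Finset.card_le_card_of_injOn (fun x : ℕ × ℕ => x.2) ?_ ?_) (hK (lam' y.2))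
      · intro x hx
        have hx' := Finset.mem_coe.mp hx
        rw [Finset.mem_filter, mem_Dd] at hx' hy
        show x.2 ∈ (U'.filter (fun w => lam' w ≡ lam' y.2 [MOD q']) : Set ℕ)
        rw [Finset.mem_coe, Finset.mem_filter]
        refine ⟨hx'.1.2.1, ?_⟩
        have h1 := hx'.1.2.2.2 hB
        have h2 := hy.1.2.2.2 hB
        have h3 := Nat.ModEq.add_right_cancel' r' (h1.symm.trans h2)
        exact Nat.ModEq.add_left_cancel' z h3
      · intro x hx w hw hxw
        have hx' := Finset.mem_coe.mp hx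
        have hw' := Finset.mem_coe.mp hw
        rw [Finset.mem_filter] at hx' hw'
        have h1 : (x.1, 0) = ((w.1, 0) : ℕ × ℕ) := hx'.2.trans hw'.2.symm
        exact Prod.ext (Prod.mk.inj h1).1 hxw
    · rw [Finset.not_nonempty_iff_eq_empty] at hne
      rw [hne, Finset.card_empty]
      exact Nat.zero_le _
  · intro z z' x y _ _ _
    exact Nat.modEq_one

/-- `x'` counted, `x` determined by `z` -/
theorem loc_A_after (hA : bA) (K : ℕ)
    (hK : ∀ t, (U.filter (fun x => lam x ≡ t [MOD q])).card ≤ K) :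
    LocOK (Dd U U' bA bB lam lam' q q' r r' n) U'.card K 1 := by
  refine ⟨fun x => (0, x.2), ⟨U'.image (fun x => (0, x)), ?_, ?_⟩, ?_, ?_⟩
  · intro z x hx
    rw [mem_Dd] at hx
    rw [Finset.mem_image]
    exact ⟨x.2, hx.2.1, rfl⟩
  · exact Finset.card_image_le
  · intro z b
    by_cases hne : ((Dd U U' bA bB lam lam' q q' r r' n z).filter
        (fun x => (0, x.2) = b)).Nonempty
    · obtain ⟨y, hy⟩ := hne
      refine le_trans (Finset.card_le_card_of_injOn (fun x : ℕ × ℕ => x.1) ?_ ?_) (hK (lam y.1))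
      · intro x hx
        have hx' := Finset.mem_coe.mp hx
        rw [Finset.mem_filter, mem_Dd] at hx' hy
        show x.1 ∈ (U.filter (fun w => lam w ≡ lam y.1 [MOD q]) : Set ℕ)
        rw [Finset.mem_coe, Finset.mem_filter]
        refine ⟨hx'.1.1, ?_⟩
        have h1 := hx'.1.2.2.1 hA
        have h2 := hy.1.2.2.1 hA
        exact Nat.ModEq.add_right_cancel' r (h1.symm.trans h2)
      · intro x hx w hw hxw
        have hx' := Finset.mem_coe.mp hx
        have hw' := Finset.mem_coe.mp hw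
        rw [Finset.mem_filter] at hx' hw'
        have h1 : (0, x.2) = ((0, w.2) : ℕ × ℕ) := hx'.2.trans hw'.2.symm
        exact Prod.ext hxw (Prod.mk.inj h1).2
    · rw [Finset.not_nonempty_iff_eq_empty] at hne
      rw [hne, Finset.card_empty]
      exact Nat.zero_le _
  · intro z z' x y _ _ _
    exact Nat.modEq_one

/-- `x'` counted, the class of `z` from the side of `a'`, `x` determined by `z` -/
theorem loc_half (hA : bA) (hB : bB) (K : ℕ)
    (hK : ∀ t, (U.filter (fun x => lam x ≡ t [MOD q])).card ≤ K) :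
    LocOK (Dd U U' bA bB lam lam' q q' r r' n) U'.card K q' := by
  obtain ⟨g, hT, hκ, _⟩ := loc_A_after U U' bA bB lam lam' q q' r r' n hA K hK
  refine ⟨fun x => (0, x.2), ⟨U'.image (fun x => (0, x)), ?_, Finset.card_image_le⟩, ?_, ?_⟩
  · intro z x hx
    rw [mem_Dd] at hx
    rw [Finset.mem_image]
    exact ⟨x.2, hx.2.1, rfl⟩
  · intro z b
    by_cases hne : ((Dd U U' bA bB lam lam' q q' r r' n z).filter
        (fun x => (0, x.2) = b)).Nonempty
    · obtain ⟨y, hy⟩ := hne
      refine le_trans (Finset.card_le_card_of_injOn (fun x : ℕ × ℕ => x.1) ?_ ?_) (hK (lam y.1))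
      · intro x hx
        have hx' := Finset.mem_coe.mp hx
        rw [Finset.mem_filter, mem_Dd] at hx' hy
        show x.1 ∈ (U.filter (fun w => lam w ≡ lam y.1 [MOD q]) : Set ℕ)
        rw [Finset.mem_coe, Finset.mem_filter]
        refine ⟨hx'.1.1, ?_⟩
        have h1 := hx'.1.2.2.1 hA
        have h2 := hy.1.2.2.1 hA
        exact Nat.ModEq.add_right_cancel' r (h1.symm.trans h2)
      · intro x hx w hw hxw
        have hx' := Finset.mem_coe.mp hx
        have hw' := Finset.mem_coe.mp hw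
        rw [Finset.mem_filter] at hx' hw'
        have h1 : (0, x.2) = ((0, w.2) : ℕ × ℕ) := hx'.2.trans hw'.2.symm
        exact Prod.ext hxw (Prod.mk.inj h1).2
    · rw [Finset.not_nonempty_iff_eq_empty] at hne
      rw [hne, Finset.card_empty]
      exact Nat.zero_le _
  · intro z z' x y hx hy hxy
    rw [mem_Dd] at hx hy
    have h1 := hx.2.2.2 hB
    have h2 := hy.2.2.2 hB
    have h3 : x.2 = y.2 := (Prod.mk.inj (show ((0, x.2) : ℕ × ℕ) = (0, y.2) from hxy)).2
    rw [← h3, add_assoc] at h2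
    rw [add_assoc] at h1
    exact modEq_of_add h1 h2

/-- both determined by `z` -/
theorem loc_after (hA : bA) (hB : bB) (K : ℕ)
    (hK : ∀ t, (U.filter (fun x => lam x ≡ t [MOD q])).card ≤ K)
    (hK' : ∀ t, (U'.filter (fun x => lam' x ≡ t [MOD q'])).card ≤ K) :
    LocOK (Dd U U' bA bB lam lam' q q' r r' n) 1 (K * K) 1 := by
  refine ⟨fun _ => (0, 0), ⟨{(0, 0)}, ?_, ?_⟩, ?_, ?_⟩
  · intro z x _
    exact Finset.mem_singleton_self _
  · simp
  · intro z b
    refine (Finset.card_filter_le _ _).trans ?_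
    by_cases hne : (Dd U U' bA bB lam lam' q q' r r' n z).Nonempty
    · obtain ⟨y, hy⟩ := hne
      refine le_trans (Finset.card_le_card (t := (U.filter (fun x => lam x ≡ lam y.1 [MOD q])) ×ˢ
        (U'.filter (fun x => lam' x ≡ lam' y.2 [MOD q']))) ?_) ?_
      · intro x hx
        rw [mem_Dd] at hx hy
        rw [Finset.mem_product, Finset.mem_filter, Finset.mem_filter]
        refine ⟨⟨hx.1, ?_⟩, hx.2.1, ?_⟩
        · exact Nat.ModEq.add_right_cancel' r ((hx.2.2.1 hA).symm.trans (hy.2.2.1 hA))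
        · have h3 := Nat.ModEq.add_right_cancel' r' ((hx.2.2.2 hB).symm.trans (hy.2.2.2 hB))
          exact Nat.ModEq.add_left_cancel' z h3
      · rw [Finset.card_product]
        exact Nat.mul_le_mul (hK _) (hK' _)
    · rw [Finset.not_nonempty_iff_eq_empty] at hne
      rw [hne, Finset.card_empty]
      exact Nat.zero_le _
  · intro z z' x y _ _ _
    exact Nat.modEq_one

/-- both not fresh: the product is known modulo `q'`; pairs counted, class of `z` from the side of
`a` -/
theorem loc_prod (hA : bA) (hB : bB) (hq : q' ∣ q) (hll : ∀ x ∈ U, lam x ≡ lam' x [MOD q'])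
    (pr : ℕ)
    (hpr : ∀ t, ((U ×ˢ U').filter (fun x => lam' x.1 + lam' x.2 ≡ t [MOD q'])).card ≤ pr) :
    LocOK (Dd U U' bA bB lam lam' q q' r r' n) pr 1 q := by
  by_cases hne : ∃ z, (Dd U U' bA bB lam lam' q q' r r' n z).Nonempty
  · obtain ⟨z₀, y, hy⟩ := hne
    have key : ∀ z, ∀ x ∈ Dd U U' bA bB lam lam' q q' r r' n z,
        lam' x.1 + lam' x.2 + (r + r') ≡ n [MOD q'] := by
      intro z x hx
      rw [mem_Dd] at hx
      have h1 := (hx.2.2.1 hA).of_dvd hq
      have h2 := hx.2.2.2 hB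
      have h3 : z ≡ lam' x.1 + r [MOD q'] := h1.trans ((hll _ hx.1).add_right r)
      have h4 : n ≡ (lam' x.1 + r) + lam' x.2 + r' [MOD q'] :=
        h2.trans ((h3.add_right _).add_right _)
      have h5 : (lam' x.1 + r) + lam' x.2 + r' = lam' x.1 + lam' x.2 + (r + r') := by ring
      rw [h5] at h4
      exact h4.symm
    refine ⟨id, ⟨(U ×ˢ U').filter (fun x => lam' x.1 + lam' x.2 ≡ lam' y.1 + lam' y.2 [MOD q']),
      ?_, hpr _⟩, ?_, ?_⟩
    · intro z x hx
      have h1 := key z x hx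
      have h2 := key z₀ y hy
      rw [mem_Dd] at hx
      rw [id, Finset.mem_filter, Finset.mem_product]
      exact ⟨⟨hx.1, hx.2.1⟩, Nat.ModEq.add_right_cancel' (r + r') (h1.trans h2.symm)⟩
    · intro z b
      rw [Finset.card_le_one]
      intro x hx w hw
      rw [Finset.mem_filter] at hx hw
      rw [← id_eq x, ← id_eq w, hx.2, hw.2]
    · intro z z' x w hx hw hxw
      rw [mem_Dd] at hx hw
      have hxw' : x = w := hxw
      rw [← hxw'] at hw
      exact (hx.2.2.1 hA).trans (hw.2.2.1 hA).symm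
  · push Not at hne
    refine ⟨id, ⟨∅, ?_, ?_⟩, ?_, ?_⟩
    · intro z x hx
      rw [hne z] at hx
      exact absurd hx (Finset.notMem_empty _)
    · simp
    · intro z b
      rw [hne z]
      simp
    · intro z z' x w hx _ _
      rw [hne z] at hx
      exact absurd hx (Finset.notMem_empty _)

end Pool.Agent.Helper29.T4
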