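import Mathlib

/-!
# T4', block F: the checker of the table

Relative families: `0` grows in the era `k` of `l`, `1` and `2` are the families of the eras `k+1`
and `k+2` (so `1` is the smaller static family, `2` the bigger one).  Sizes in terms of
`W t`, the size after its growth of the family of the era `k' - 3 + t`, where `k' = k - d`.
-/

namespace Pool.Agent.Helper29.T4.Tab

/-- the families hashing the relative family `i` in the phase `ph`, as a bit mask -/
def pm (ph i : ℕ) : ℕ :=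
  match ph, i with
  | 0, 1 => 5
  | 0, 2 => 1
  | 1, 2 => 1
  | 2, 0 => 2
  | 2, 2 => 3
  | _, _ => 0

/-- is the relative family `i` fresh, if the families of the mask `c` are constant? -/
def fr (ph c i : ℕ) : Bool := !(Nat.beq (Nat.land (pm ph i) c) (pm ph i))

/-- rotation of masks -/
def rot (d c : ℕ) : ℕ :=
  match d % 3 with
  | 0 => c
  | 1 => (c * 2) % 8 + c / 4
  | _ => (c * 4) % 8 + c / 2

/-- fresh on the side of `a'` -/
def fr2 (d ph2 c2 i : ℕ) : Bool := fr ph2 (rot d c2) ((i + d) % 3)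

def bit (c i : ℕ) : Bool := Nat.testBit c i

def b2z (b : Bool) : ℤ := match b with
  | true => 1
  | false => 0

/-- validity of a mode; `f`, `g`: fresh on the side of `a`, of `a'` -/
def okM (m : ℕ) (f g : Bool) : Bool :=
  match m with
  | 0 => true
  | 1 => !f
  | 2 => !g
  | 3 => !g
  | 4 => !f
  | 5 => !f && !g
  | 6 => !f && !g
  | 7 => !f && !g
  | _ => false

/-- twice the coefficient of `λ` in the cost; `c`, `c2`: constant on the two sides -/
def c1 (m : ℕ) (c c2 f g : Bool) : ℤ :=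
  match m with
  | 0 => b2z (!c) - 2 * b2z f
  | 1 => b2z (!c) - 2 * b2z f
  | 2 => b2z (!c) - 2 * b2z f
  | 3 => b2z (!c) - 2 * b2z f
  | 4 => - 2 * b2z f
  | 7 => b2z (!c)
  | _ => 0

/-- twice the coefficient of `λ'` in the cost -/
def c2' (m : ℕ) (c c2 f g : Bool) : ℤ :=
  match m with
  | 0 => b2z (!c2) - 2 * b2z g
  | 1 => b2z (!c2) - 2 * b2z g
  | 2 => b2z (!c2) - 2 * b2z g
  | 3 => - 2 * b2z g
  | 4 => b2z (!c2) - 2 * b2z g
  | 5 => b2z (!c2)
  | 7 => if c then 0 else (if c2 then -2 else -1)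
  | _ => 0

/-- coefficients of the modulus -/
def m1 (m : ℕ) : ℤ :=
  match m with
  | 1 => 1
  | 7 => 1
  | _ => 0

def m2 (m : ℕ) : ℤ :=
  match m with
  | 2 => 1
  | 5 => 1
  | _ => 0

/-- weights -/
def wn (d t : ℕ) : ℕ := if t ≤ d + 3 then 2 ^ (d + 3 - t) * 3 ^ t else 0

/-- coefficients of the side of `a` at the position `p / 15`, times 15 -/
def coL (d p : ℕ) (a : ℕ → ℤ) (t : ℕ) : ℤ :=
  if t = d then a 0 * (15 - p) else if t = d + 1 then 15 * a 1 else if t = d + 2 then 15 * a 2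
  else if t = d + 3 then a 0 * p else 0

/-- the value with the relative error `1/1000` -/
def rob (x : ℤ) (w : ℕ) : ℤ := (1000 * x + (x.natAbs : ℤ)) * w

def sum8 (f : ℕ → ℤ) : ℤ := f 0 + f 1 + f 2 + f 3 + f 4 + f 5 + f 6 + f 7

/-- `b` is indexed relative to `k'` -/
def val (d p pp : ℕ) (a b : ℕ → ℤ) : ℤ :=
  sum8 (fun t => rob (coL d p a t + coL 0 pp b t) (wn d t))

def p0 (ph : ℕ) : ℕ := match ph with
  | 0 => 0
  | 1 => 5
  | _ => 6

def p1 (ph : ℕ) : ℕ := match ph with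
  | 0 => 5
  | 1 => 6
  | _ => 15

/-- the linear form is nonpositive on the whole region -/
def okF (d ph ph2 : ℕ) (a b : ℕ → ℤ) : Bool :=
  decide (val d (p0 ph) (p0 ph2) a b ≤ 0) && decide (val d (p1 ph) (p0 ph2) a b ≤ 0) &&
  decide (val d (p1 ph) (p1 ph2) a b ≤ 0) &&
  ((Nat.beq d 0 && Nat.beq ph ph2) || decide (val d (p0 ph) (p1 ph2) a b ≤ 0))

/-- index change: coefficient relative to `k'` -/
def sh (d : ℕ) (b : ℕ → ℤ) : ℕ → ℤ := fun j => b ((j + 2 * d) % 3)

def okG (d ph ph2 : ℕ) (a b : ℕ → ℤ) : Bool := okF d ph ph2 a (sh d b)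

/-- not fresh on both sides -/
def nf (d ph ph2 c c2 i : ℕ) : Bool := !(fr ph c i) && !(fr2 d ph2 c2 i)

def v1 (d ph ph2 c c2 i : ℕ) : Bool := nf d ph ph2 c c2 i && bit c i && !(bit c2 i)

def v2 (d ph ph2 c c2 i : ℕ) : Bool :=
  nf d ph ph2 c c2 i && !(bit c i) && bit c2 i &&
    okG d ph ph2 (fun j => if j = i then 1 else 0) (fun j => if j = i then -2 else 0)

/-- families which do not grow between the two positions -/
def st (d i : ℕ) : Bool := (Nat.beq d 0 && !(Nat.beq i 0)) || (Nat.beq d 1 && Nat.beq i 1)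

def v3 (d ph ph2 c c2 i : ℕ) : Bool :=
  nf d ph ph2 c c2 i && !(bit c i) && !(bit c2 i) && st d i

def v4 (d ph ph2 c c2 : ℕ) : Bool :=
  okG d ph ph2 (fun i => 2 - 200 * b2z (bit c i && !(fr ph c i)))
    (fun i => 198 - 200 * b2z (!(bit c i && !(fr ph c i)) && (bit c2 i && !(fr2 d ph2 c2 i))))

/-- mode of the family `i` in the code `e` -/
def md (e i : ℕ) : ℕ := (e / 8 ^ i) % 8

def fa (ph d ph2 c c2 e : ℕ) (top : Bool) (i : ℕ) : ℤ :=
  100 * c1 (md e i) (bit c i) (bit c2 i) (fr ph c i) (fr2 d ph2 c2 i) + 2 -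
    200 * b2z top * m1 (md e i)

def fb (ph d ph2 c c2 e : ℕ) (top : Bool) (i : ℕ) : ℤ :=
  100 * c2' (md e i) (bit c i) (bit c2 i) (fr ph c i) (fr2 d ph2 c2 i) - 2 +
    200 * b2z top * (1 - m2 (md e i))

/-- validity and positivity for one family -/
def okI (d ph ph2 c c2 e i : ℕ) : Bool :=
  okM (md e i) (fr ph c i) (fr2 d ph2 c2 i) &&
  ((!(Nat.beq (md e i) 7) || bit c i || !(bit c2 i)) ||
    okG d ph ph2 (fun j => if j = i then -1 else 0) (fun j => if j = i then 2 else 0))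

def okE (d ph ph2 c c2 e : ℕ) : Bool :=
  okI d ph ph2 c c2 e 0 && okI d ph ph2 c c2 e 1 && okI d ph ph2 c c2 e 2 &&
  okG d ph ph2 (fa ph d ph2 c c2 e false) (fb ph d ph2 c c2 e false) &&
  okG d ph ph2 (fa ph d ph2 c c2 e true) (fb ph d ph2 c c2 e true)

def rowOK (d ph ph2 c c2 e : ℕ) : Bool :=
  v1 d ph ph2 c c2 0 || v1 d ph ph2 c c2 1 || v1 d ph ph2 c c2 2 ||
  (v2 d ph ph2 c c2 0 || v2 d ph ph2 c c2 1 || v2 d ph ph2 c c2 2) ||
  (v3 d ph ph2 c c2 0 || v3 d ph ph2 c c2 1 || v3 d ph ph2 c c2 2) ||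
  v4 d ph ph2 c c2 || okE d ph ph2 c c2 e

/-- all rows of a block; `T` holds the modes -/
def blk (d ph ph2 T : ℕ) : Bool :=
  (List.range 64).all (fun r => rowOK d ph ph2 (r / 8) (r % 8) (T / 512 ^ r % 512))

end Pool.Agent.Helper29.T4.Tab
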