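import Pool.Agent.Helper25.T4.Pattern
import Pool.Agent.Helper29.T4.Local

/-!
# T4', block F: common definitions
-/

namespace Pool.Agent.Helper29.T4

open Finset Pool.Agent.Helper27.T4 Pool.Agent.Helper5.ET Pool.Agent.Helper25.T4

/-- one component of `XX s` -/
def Uc (s : ℕ) (f : Fin 3) : Finset ℕ :=
  (range (pr f ^ cnt f (sl s))).filter
    (fun y => y.Prime ∧ y.Coprime (pr f) ∧ y ^ 2 < pr f ^ cnt f (sl s))

/-- the values of the coordinate `f`: one value if `f` is constant -/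
def Uf (s : ℕ) (C : Finset (Fin 3)) (x0 : Fin 3 → ℕ) (f : Fin 3) : Finset ℕ :=
  if f ∈ C then {x0 f} else Uc s f

/-- the index as a number -/
noncomputable def lamA (s : ℕ) (f : Fin 3) (x : ℕ) : ℕ := (Lg (pr f) (cnt f (se s)) x).val

/-- the modulus of the family `f` at `sl s` -/
def qq (s : ℕ) (f : Fin 3) : ℕ := pr f ^ cnt f (sl s)

/-- all candidates for hits of `n`, with `z` in an interval -/
def Ybox (s s' n A0 L : ℕ) : Finset Hit :=
  ((Finset.Ico A0 (A0 + L)) ×ˢ (range (vhi s) ×ˢ (range (vhi s') ×ˢ (XX s ×ˢ XX s')))).filter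
    (fun y => Nj (sl s) * hv1 y ≤ hz y ∧ hz y + Nj (sl s') * hv2 y ≤ n)

open Classical in
/-- the data of the family `f` for a given `z` -/
noncomputable def Df (s s' n : ℕ) (C C' : Finset (Fin 3)) (x0 x0' : Fin 3 → ℕ) (f : Fin 3)
    (r r' : ℕ) : ℕ → Finset (ℕ × ℕ) :=
  Dd (Uf s C x0 f) (Uf s' C' x0' f) (f ∉ frs (sl s) C) (f ∉ frs (sl s') C') (lamA s f)
    (lamA s' f) (qq s f) (qq s' f) r r' n

end Pool.Agent.Helper29.T4
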