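import Mathlib

/-!
# Union bound over families of hits with disjoint fresh keys, abstract form
-/

namespace Pool.Agent.Helper29.T4

open Finset

/-- the values at different keys are independent and uniform (upper bound only) -/
def Indep {Ω κ : Type*} [Fintype Ω] (ρ : Ω → κ → ℕ) (M : κ → ℕ) : Prop :=
  ∀ (K : Finset κ) (v : κ → ℕ), (Nat.card {r : Ω // ∀ k ∈ K, ρ r k = v k} : ℝ) ≤
    Fintype.card Ω * ∏ k ∈ K, ((M k : ℝ))⁻¹

theorem Indep.card {Ω κ : Type*} [Fintype Ω] {ρ : Ω → κ → ℕ} {M : κ → ℕ} (h : Indep ρ M)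
    (K : Finset κ) (v : κ → ℕ) (S : Finset Ω) (hS : ∀ r ∈ S, ∀ k ∈ K, ρ r k = v k) :
    (S.card : ℝ) ≤ Fintype.card Ω * ∏ k ∈ K, ((M k : ℝ))⁻¹ := by
  classical
  have h1 := h K v
  rw [Nat.card_eq_fintype_card, Fintype.card_subtype] at h1
  refine le_trans (Nat.cast_le.mpr (Finset.card_le_card ?_)) h1
  intro r hr
  rw [Finset.mem_filter]
  exact ⟨Finset.mem_univ _, hS r hr⟩

open Classical in
/-- union bound over families of `m + 1` hits which are compatible with each other and have
disjoint fresh keys; `Q` bounds the expected number of hits compatible with a given one -/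
theorem tuple_bound_abs {Ω κ δ : Type*} [Fintype Ω] {ρ : Ω → κ → ℕ} {M : κ → ℕ}
    (hI : Indep ρ M) (Y : Finset δ)
    (hit : δ → Ω → Prop) (fk : δ → Finset κ) (vl : δ → κ → ℕ)
    (hv : ∀ y ∈ Y, ∀ r, hit y r → ∀ k ∈ fk y, ρ r k = vl y k)
    (compat : δ → δ → Prop) (Q : ℝ)
    (hQ : ∀ y ∈ Y, ∑ z ∈ Y.filter (compat y), ∏ k ∈ fk z, ((M k : ℝ))⁻¹ ≤ Q) (m : ℕ) :
    (((univ : Finset Ω).filter (fun r => ∃ T ⊆ Y, T.card = m + 1 ∧ (∀ y ∈ T, hit y r) ∧
        (∀ y ∈ T, ∀ z ∈ T, compat y z) ∧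
        (∀ y ∈ T, ∀ z ∈ T, y ≠ z → Disjoint (fk y) (fk z)))).card : ℝ) ≤
      Fintype.card Ω * (Y.card * Q ^ m) := by
  classical
  have hcov : ((univ : Finset Ω).filter (fun r => ∃ T ⊆ Y, T.card = m + 1 ∧
        (∀ y ∈ T, hit y r) ∧
        (∀ y ∈ T, ∀ z ∈ T, compat y z) ∧
        (∀ y ∈ T, ∀ z ∈ T, y ≠ z → Disjoint (fk y) (fk z)))) ⊆
      Y.biUnion (fun y => (Fintype.piFinset (fun _ : Fin m => Y.filter (compat y))).biUnion
        (fun g => (univ : Finset Ω).filter (fun r =>
          (∀ i j, i ≠ j → Disjoint (fk (g i)) (fk (g j))) ∧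
          ∀ i, ∀ k ∈ fk (g i), ρ r k = vl (g i) k))) := by
    intro r hr
    rw [Finset.mem_filter] at hr
    obtain ⟨hrΩ, T, hTY, hTc, hhit, hcomp, hdis⟩ := hr
    have hTne : T.Nonempty := Finset.card_pos.mp (by omega)
    obtain ⟨y, hy⟩ := hTne
    have hc : (T.erase y).card = m := by
      rw [Finset.card_erase_of_mem hy, hTc]
      rfl
    let e := (T.erase y).equivFinOfCardEq hc
    have hmem : ∀ i : Fin m, ((e.symm i : (T.erase y : Finset δ)) : δ) ∈ T := fun i =>
      Finset.mem_of_mem_erase (e.symm i).2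
    rw [Finset.mem_biUnion]
    refine ⟨y, hTY hy, ?_⟩
    rw [Finset.mem_biUnion]
    refine ⟨fun i => (e.symm i : δ), ?_, ?_⟩
    · rw [Fintype.mem_piFinset]
      intro i
      rw [Finset.mem_filter]
      exact ⟨hTY (hmem i), hcomp y hy _ (hmem i)⟩
    · rw [Finset.mem_filter]
      refine ⟨hrΩ, ?_, ?_⟩
      · intro i j hij
        apply hdis _ (hmem i) _ (hmem j)
        intro h
        apply hij
        exact e.symm.injective (Subtype.ext h)
      · intro i k hk
        exact hv _ (hTY (hmem i)) r (hhit _ (hmem i)) k hk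
  have hone : ∀ y ∈ Y, ∀ g ∈ Fintype.piFinset (fun _ : Fin m => Y.filter (compat y)),
      (((univ : Finset Ω).filter (fun r => (∀ i j, i ≠ j → Disjoint (fk (g i)) (fk (g j))) ∧
          ∀ i, ∀ k ∈ fk (g i), ρ r k = vl (g i) k)).card : ℝ) ≤
        Fintype.card Ω * ∏ i, ∏ k ∈ fk (g i), ((M k : ℝ))⁻¹ := by
    intro y _ g hg
    by_cases hd : ∀ i j, i ≠ j → Disjoint (fk (g i)) (fk (g j))
    · -- the common value function
      let v : κ → ℕ := fun k => if h : ∃ i, k ∈ fk (g i) then vl (g h.choose) k else 0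
      have hsub : ∀ r ∈ ((univ : Finset Ω).filter (fun r =>
          (∀ i j, i ≠ j → Disjoint (fk (g i)) (fk (g j))) ∧
          ∀ i, ∀ k ∈ fk (g i), ρ r k = vl (g i) k)),
            ∀ k ∈ Finset.univ.biUnion (fun i => fk (g i)), ρ r k = v k := by
        intro r hr
        rw [Finset.mem_filter] at hr
        intro k hk
        rw [Finset.mem_biUnion] at hk
        obtain ⟨i, _, hi⟩ := hk
        have hex : ∃ i, k ∈ fk (g i) := ⟨i, hi⟩
        simp only [v, dif_pos hex]
        exact hr.2.2 _ k hex.choose_spec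
      refine (hI.card _ v _ hsub).trans ?_
      apply mul_le_mul_of_nonneg_left _ (Nat.cast_nonneg _)
      rw [Finset.prod_biUnion (by
        intro i _ j _ hij
        exact hd i j hij)]
    · have hemp : ((univ : Finset Ω).filter (fun r =>
          (∀ i j, i ≠ j → Disjoint (fk (g i)) (fk (g j))) ∧
          ∀ i, ∀ k ∈ fk (g i), ρ r k = vl (g i) k)) = ∅ := by
        apply Finset.filter_false_of_mem
        intro r _ h
        exact hd h.1
      rw [hemp]
      simp only [Finset.card_empty, Nat.cast_zero]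
      apply mul_nonneg (Nat.cast_nonneg _)
      exact Finset.prod_nonneg (fun i _ => Finset.prod_nonneg
        (fun k _ => inv_nonneg.mpr (Nat.cast_nonneg _)))
  have hnn : ∀ y : δ, 0 ≤ ∏ k ∈ fk y, ((M k : ℝ))⁻¹ := fun y =>
    Finset.prod_nonneg (fun k _ => inv_nonneg.mpr (Nat.cast_nonneg _))
  calc _ ≤ ((Y.biUnion (fun y => (Fintype.piFinset (fun _ : Fin m => Y.filter (compat y))).biUnion
        (fun g => (univ : Finset Ω).filter (fun r =>
          (∀ i j, i ≠ j → Disjoint (fk (g i)) (fk (g j))) ∧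
          ∀ i, ∀ k ∈ fk (g i), ρ r k = vl (g i) k)))).card : ℝ) :=
        Nat.cast_le.mpr (Finset.card_le_card hcov)
    _ ≤ ∑ y ∈ Y, ∑ g ∈ Fintype.piFinset (fun _ : Fin m => Y.filter (compat y)),
        (((univ : Finset Ω).filter (fun r =>
          (∀ i j, i ≠ j → Disjoint (fk (g i)) (fk (g j))) ∧
          ∀ i, ∀ k ∈ fk (g i), ρ r k = vl (g i) k)).card : ℝ) := by
        have h1 : (Y.biUnion (fun y => (Fintype.piFinset
            (fun _ : Fin m => Y.filter (compat y))).biUnion
            (fun g => (univ : Finset Ω).filter (fun r =>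
          (∀ i j, i ≠ j → Disjoint (fk (g i)) (fk (g j))) ∧
          ∀ i, ∀ k ∈ fk (g i), ρ r k = vl (g i) k)))).card ≤
          ∑ y ∈ Y, ∑ g ∈ Fintype.piFinset (fun _ : Fin m => Y.filter (compat y)),
        ((univ : Finset Ω).filter (fun r =>
          (∀ i j, i ≠ j → Disjoint (fk (g i)) (fk (g j))) ∧
          ∀ i, ∀ k ∈ fk (g i), ρ r k = vl (g i) k)).card :=
          Finset.card_biUnion_le.trans (Finset.sum_le_sum (fun y _ => Finset.card_biUnion_le))
        exact_mod_cast h1
    _ ≤ ∑ y ∈ Y, ∑ g ∈ Fintype.piFinset (fun _ : Fin m => Y.filter (compat y)),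
        (Fintype.card Ω : ℝ) * ∏ i, ∏ k ∈ fk (g i), ((M k : ℝ))⁻¹ :=
        Finset.sum_le_sum (fun y hy => Finset.sum_le_sum (fun g hg => hone y hy g hg))
    _ = ∑ y ∈ Y, (Fintype.card Ω : ℝ) *
          (∑ z ∈ Y.filter (compat y), ∏ k ∈ fk z, ((M k : ℝ))⁻¹) ^ m := by
        apply Finset.sum_congr rfl
        intro y _
        rw [← Finset.mul_sum]
        congr 1
        rw [← Fin.prod_const, Finset.prod_univ_sum]
    _ ≤ ∑ _y ∈ Y, (Fintype.card Ω : ℝ) * Q ^ m := by
        apply Finset.sum_le_sum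
        intro y hy
        apply mul_le_mul_of_nonneg_left _ (Nat.cast_nonneg _)
        exact pow_le_pow_left₀ (Finset.sum_nonneg (fun z _ => hnn z)) (hQ y hy) m
    _ = Fintype.card Ω * (Y.card * Q ^ m) := by
        rw [Finset.sum_const, nsmul_eq_mul]
        ring

/-- product spaces -/
theorem indep_pi {κ : Type*} [Fintype κ] [DecidableEq κ] {β : κ → Type*} [∀ k, Fintype (β k)]
    [∀ k, DecidableEq (β k)] (val : ∀ k, β k → ℕ) (hval : ∀ k, Function.Injective (val k))
    (hne : ∀ k, 0 < Fintype.card (β k)) :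
    Indep (Ω := ∀ k, β k) (fun r k => val k (r k)) (fun k => Fintype.card (β k)) := by
  classical
  intro K v
  rw [Nat.card_eq_fintype_card, Fintype.card_subtype]
  have h2 : ((univ : Finset (∀ k, β k)).filter (fun r => ∀ k ∈ K, val k (r k) = v k)) ⊆
      Fintype.piFinset (fun k => if k ∈ K then univ.filter (fun b => val k b = v k)
        else (univ : Finset (β k))) := by
    intro r hr
    rw [Finset.mem_filter] at hr
    rw [Fintype.mem_piFinset]
    intro k
    by_cases hk : k ∈ K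
    · rw [if_pos hk, Finset.mem_filter]
      exact ⟨Finset.mem_univ _, hr.2 k hk⟩
    · rw [if_neg hk]
      exact Finset.mem_univ _
  have h1 : ((univ : Finset (∀ k, β k)).filter (fun r => ∀ k ∈ K, val k (r k) = v k)).card ≤
      ∏ k ∈ Finset.univ \ K, Fintype.card (β k) := by
    refine (Finset.card_le_card h2).trans ?_
    rw [Fintype.card_piFinset]
    rw [← Finset.prod_sdiff (Finset.subset_univ K)]
    have h3 : ∏ x ∈ K, (if x ∈ K then (univ.filter (fun b => val x b = v x))
        else (univ : Finset (β x))).card ≤ 1 := by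
      apply Finset.prod_le_one'
      intro x hx
      rw [if_pos hx, Finset.card_le_one]
      intro a ha b hb
      rw [Finset.mem_filter] at ha hb
      exact hval x (ha.2.trans hb.2.symm)
    calc _ ≤ (∏ x ∈ Finset.univ \ K, (if x ∈ K then (univ.filter (fun b => val x b = v x))
        else (univ : Finset (β x))).card) * 1 := Nat.mul_le_mul_left _ h3
      _ = ∏ k ∈ Finset.univ \ K, Fintype.card (β k) := by
        rw [mul_one]
        apply Finset.prod_congr rfl
        intro x hx
        rw [if_neg (Finset.mem_sdiff.mp hx).2, Finset.card_univ]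
  have hpos : (0 : ℝ) < ∏ k ∈ K, (Fintype.card (β k) : ℝ) :=
    Finset.prod_pos (fun k _ => by exact_mod_cast hne k)
  rw [Finset.prod_inv_distrib, ← div_eq_mul_inv, le_div_iff₀ hpos]
  have h4 : Fintype.card (∀ k, β k) = (∏ k ∈ Finset.univ \ K, Fintype.card (β k)) *
      ∏ k ∈ K, Fintype.card (β k) := by
    rw [Fintype.card_pi, Finset.prod_sdiff (Finset.subset_univ K)]
  have h5 : ((univ : Finset (∀ k, β k)).filter (fun r => ∀ k ∈ K, val k (r k) = v k)).card *
      ∏ k ∈ K, Fintype.card (β k) ≤ Fintype.card (∀ k, β k) := by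
    rw [h4]
    exact Nat.mul_le_mul_right _ h1
  exact_mod_cast h5

end Pool.Agent.Helper29.T4
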