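import Mathlib

/-!
# Counting the values of a hit, one class or one list per family
-/

namespace Pool.Agent.Helper29.T4

open Finset

/-- the number of integers of an interval in a class of residues modulo `m` -/
theorem card_class_le (A L m r : ℕ) (hm : 0 < m) :
    ((Finset.Ico A (A + L)).filter (fun z => z ≡ r [MOD m])).card ≤ L / m + 1 := by
  have h : ((Finset.Ico A (A + L)).filter (fun z => z ≡ r [MOD m])).card ≤
      (Finset.range (L / m + 1)).card := by
    apply Finset.card_le_card_of_injOn (fun z => (z - A) / m)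
    · intro z hz
      have hz' := Finset.mem_coe.mp hz
      rw [Finset.mem_filter, Finset.mem_Ico] at hz'
      show (z - A) / m ∈ (Finset.range (L / m + 1) : Set ℕ)
      rw [Finset.mem_coe, Finset.mem_range, Nat.lt_succ_iff]
      apply Nat.div_le_div_right
      omega
    · intro z hz w hw hzw
      have hz' := Finset.mem_coe.mp hz
      have hw' := Finset.mem_coe.mp hw
      rw [Finset.mem_filter, Finset.mem_Ico] at hz' hw'
      have hzw' : (z - A) / m = (w - A) / m := hzw
      have hc : z ≡ w [MOD m] := hz'.2.trans hw'.2.symm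
      have h1 := Nat.div_add_mod (z - A) m
      have h2 := Nat.div_add_mod (w - A) m
      have h3 := Nat.mod_lt (z - A) hm
      have h4 := Nat.mod_lt (w - A) hm
      rw [hzw'] at h1
      rcases le_total z w with hle | hle
      · have h5 : m ∣ w - z := (Nat.modEq_iff_dvd' hle).mp hc
        have h6 : w - z = 0 := by
          apply Nat.eq_zero_of_dvd_of_lt h5
          omega
        omega
      · have h5 : m ∣ z - w := (Nat.modEq_iff_dvd' hle).mp hc.symm
        have h6 : z - w = 0 := by
          apply Nat.eq_zero_of_dvd_of_lt h5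
          omega
        omega
  rwa [Finset.card_range] at h

/-- several classes modulo pairwise coprime moduli -/
theorem card_classes_le {ι : Type*} [Fintype ι] (A L : ℕ) (μ r : ι → ℕ) (hμ : ∀ i, 0 < μ i)
    (hcop : Pairwise (Function.onFun Nat.Coprime μ)) :
    ((Finset.Ico A (A + L)).filter (fun z => ∀ i, z ≡ r i [MOD μ i])).card ≤
      L / (∏ i, μ i) + 1 := by
  classical
  have hx : ∃ x : ℕ, ∀ i, x ≡ r i [MOD μ i] := by
    have h := Nat.chineseRemainderOfFinset r μ Finset.univ (fun i _ => (hμ i).ne')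
      (fun i _ j _ hij => hcop hij)
    exact ⟨h.1, fun i => h.2 i (Finset.mem_univ i)⟩
  obtain ⟨x, hx⟩ := hx
  refine le_trans (Finset.card_le_card ?_)
    (card_class_le A L (∏ i, μ i) x (Finset.prod_pos (fun i _ => hμ i)))
  intro z hz
  rw [Finset.mem_filter] at hz ⊢
  refine ⟨hz.1, ?_⟩
  rw [Nat.modEq_iff_dvd]
  push_cast
  apply Fintype.prod_dvd_of_coprime
  · intro i j hij
    exact Nat.isCoprime_iff_coprime.mpr (hcop hij)
  · intro i
    exact Nat.modEq_iff_dvd.mp ((hz.2 i).trans (hx i).symm)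

/-- counting with modes: for every family `i` a list `T i` of possible choices, every choice
forces a class of `z` modulo `μ i`, and leaves at most `κ i` possibilities for the data of the
family once `z` is known -/
theorem card_modes {ι α τ : Type*} [Fintype ι] [DecidableEq ι] [DecidableEq α] [DecidableEq τ]
    (A L : ℕ) (μ : ι → ℕ) (hμ : ∀ i, 0 < μ i)
    (hcop : Pairwise (Function.onFun Nat.Coprime μ)) (T : ι → Finset τ)
    (Wt : ℕ → ι → τ → Finset α) (κ : ι → ℕ) (hW : ∀ z i, ∀ t ∈ T i, (Wt z i t).card ≤ κ i)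
    (res : ι → τ → ℕ) (S : Finset (ℕ × (ι → α)))
    (h : ∀ q ∈ S, A ≤ q.1 ∧ q.1 < A + L ∧
      ∀ i, ∃ t ∈ T i, q.2 i ∈ Wt q.1 i t ∧ q.1 ≡ res i t [MOD μ i]) :
    S.card ≤ (∏ i, κ i) * (∏ i, (T i).card) * (L / (∏ i, μ i) + 1) := by
  have hsub : S ⊆ (Fintype.piFinset T).biUnion (fun t =>
      ((Finset.Ico A (A + L)).filter (fun z => ∀ i, z ≡ res i (t i) [MOD μ i])).biUnion
        (fun z => (Fintype.piFinset (fun i => Wt z i (t i))).image (fun w => (z, w)))) := by
    intro q hq
    obtain ⟨h1, h2, h3⟩ := h q hq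
    choose t ht using h3
    rw [Finset.mem_biUnion]
    refine ⟨t, Fintype.mem_piFinset.mpr (fun i => (ht i).1), ?_⟩
    rw [Finset.mem_biUnion]
    refine ⟨q.1, ?_, ?_⟩
    · rw [Finset.mem_filter, Finset.mem_Ico]
      exact ⟨⟨h1, h2⟩, fun i => (ht i).2.2⟩
    · rw [Finset.mem_image]
      exact ⟨q.2, Fintype.mem_piFinset.mpr (fun i => (ht i).2.1), rfl⟩
  calc S.card ≤ _ := Finset.card_le_card hsub
    _ ≤ ∑ t ∈ Fintype.piFinset T,
        ∑ z ∈ (Finset.Ico A (A + L)).filter (fun z => ∀ i, z ≡ res i (t i) [MOD μ i]),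
          ∏ i, κ i := by
        refine Finset.card_biUnion_le.trans (Finset.sum_le_sum (fun t ht => ?_))
        refine Finset.card_biUnion_le.trans (Finset.sum_le_sum (fun z _ => ?_))
        refine Finset.card_image_le.trans ?_
        rw [Fintype.card_piFinset]
        exact Finset.prod_le_prod' (fun i _ => hW z i (t i) (Fintype.mem_piFinset.mp ht i))
    _ ≤ ∑ _t ∈ Fintype.piFinset T, (L / (∏ i, μ i) + 1) * ∏ i, κ i := by
        apply Finset.sum_le_sum
        intro t _
        rw [Finset.sum_const, smul_eq_mul]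
        exact Nat.mul_le_mul_right _ (card_classes_le A L μ (fun i => res i (t i)) hμ hcop)
    _ = (∏ i, κ i) * (∏ i, (T i).card) * (L / (∏ i, μ i) + 1) := by
        rw [Finset.sum_const, Fintype.card_piFinset, smul_eq_mul]
        ring

/-- the data of one family: `D z` = possible data once `z` is known; `g` = the part which is
counted, with at most `t` values; it fixes `z` modulo `μ`, and leaves at most `κ` data for every `z` -/
def LocOK {α : Type*} [DecidableEq α] (D : ℕ → Finset α) (t κ μ : ℕ) : Prop :=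
  ∃ g : α → α, (∃ T : Finset α, (∀ z, ∀ q ∈ D z, g q ∈ T) ∧ T.card ≤ t) ∧
    (∀ z b, ((D z).filter (fun q => g q = b)).card ≤ κ) ∧
    ∀ z z' q q', q ∈ D z → q' ∈ D z' → g q = g q' → z ≡ z' [MOD μ]

theorem card_loc {ι α : Type*} [Fintype ι] [DecidableEq ι] [DecidableEq α]
    (A L : ℕ) (D : ι → ℕ → Finset α) (t κ μ : ι → ℕ) (hμ : ∀ i, 0 < μ i)
    (hcop : Pairwise (Function.onFun Nat.Coprime μ)) (h : ∀ i, LocOK (D i) (t i) (κ i) (μ i)) :
    ((Finset.Ico A (A + L)).sigma (fun z => Fintype.piFinset (fun i => D i z))).card ≤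
      (∏ i, κ i) * (∏ i, t i) * (L / (∏ i, μ i) + 1) := by
  classical
  choose g hg using h
  have hT := fun i => (hg i).1
  choose T hT using hT
  have hres : ∀ i b, ∃ r : ℕ, ∀ z q, q ∈ D i z → g i q = b → z ≡ r [MOD μ i] := by
    intro i b
    by_cases hb : ∃ z q, q ∈ D i z ∧ g i q = b
    · obtain ⟨z, q, hq, hqb⟩ := hb
      refine ⟨z, ?_⟩
      intro z' q' hq' hq'b
      exact (hg i).2.2 z' z q' q hq' hq (by rw [hq'b, hqb])
    · refine ⟨0, ?_⟩
      intro z q hq hqb
      exact absurd ⟨z, q, hq, hqb⟩ hb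
  choose res hres using hres
  have hcard : ((Finset.Ico A (A + L)).sigma (fun z => Fintype.piFinset (fun i => D i z))).card =
      (((Finset.Ico A (A + L)).sigma (fun z => Fintype.piFinset (fun i => D i z))).image
        (fun q => (q.1, q.2))).card := by
    rw [Finset.card_image_of_injective]
    rintro ⟨a, b⟩ ⟨c, d⟩ hq
    simp only [Prod.mk.injEq] at hq
    obtain ⟨rfl, rfl⟩ := hq
    rfl
  rw [hcard]
  refine (card_modes A L μ hμ hcop T (fun z i b => (D i z).filter (fun q => g i q = b)) κ
    (fun z i b _ => (hg i).2.1 z b) res _ ?_).trans ?_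
  · intro q hq
    rw [Finset.mem_image] at hq
    obtain ⟨⟨z, w⟩, hzw, rfl⟩ := hq
    rw [Finset.mem_sigma, Finset.mem_Ico, Fintype.mem_piFinset] at hzw
    refine ⟨hzw.1.1, hzw.1.2, ?_⟩
    intro i
    refine ⟨g i (w i), (hT i).1 z _ (hzw.2 i), ?_, ?_⟩
    · rw [Finset.mem_filter]
      exact ⟨hzw.2 i, rfl⟩
    · exact hres i _ z (w i) (hzw.2 i) rfl
  · apply Nat.mul_le_mul_right
    apply Nat.mul_le_mul_left
    exact Finset.prod_le_prod' (fun i _ => (hT i).2)

end Pool.Agent.Helper29.T4
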