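import Pool.Agent.Helper29.T4.Tab

/-!
# T4', block F: soundness of the checker of the table
-/

namespace Pool.Agent.Helper29.T4.Tab

/-- the sizes of the three relative families at the relative position `x` -/
noncomputable def lamR (d : ℕ) (W : ℕ → ℝ) (x : ℝ) (i : ℕ) : ℝ :=
  if i = 0 then (1 - x) * W d + x * W (d + 3) else W (d + i)

/-- the linear form, `b` relative to `k'` -/
noncomputable def FF (d : ℕ) (W : ℕ → ℝ) (a b : ℕ → ℤ) (x y : ℝ) : ℝ :=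
  (a 0 * lamR d W x 0 + a 1 * lamR d W x 1 + a 2 * lamR d W x 2) +
    (b 0 * lamR 0 W y 0 + b 1 * lamR 0 W y 1 + b 2 * lamR 0 W y 2)

theorem FF_affine (d : ℕ) (W : ℕ → ℝ) (a b : ℕ → ℤ) : ∃ α β γ : ℝ, ∀ x y,
    FF d W a b x y = α + β * x + γ * y := by
  refine ⟨a 0 * W d + a 1 * W (d + 1) + a 2 * W (d + 2) + b 0 * W 0 + b 1 * W 1 + b 2 * W 2,
    a 0 * (W (d + 3) - W d), b 0 * (W 3 - W 0), ?_⟩
  intro x y
  simp only [FF, lamR, if_true, one_ne_zero, if_false, OfNat.ofNat_ne_zero, zero_add]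
  ring

theorem coL_zero {d p : ℕ} {a : ℕ → ℤ} {t : ℕ} (h : d + 3 < t) : coL d p a t = 0 := by
  unfold coL
  rw [if_neg (by omega), if_neg (by omega), if_neg (by omega), if_neg (by omega)]

theorem FF_val (d : ℕ) (hd : d ≤ 4) (W : ℕ → ℝ) (a b : ℕ → ℤ) (p pp : ℕ) :
    15 * FF d W a b (p / 15) (pp / 15) =
      ∑ t ∈ Finset.range 8, ((coL d p a t + coL 0 pp b t : ℤ) : ℝ) * W t := by
  interval_cases d <;>
  · simp [FF, lamR, Finset.sum_range_succ, coL]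
    ring

theorem rob_le {x : ℤ} {w : ℕ} {u Wt : ℝ} (hW : |Wt - u * w| ≤ u * w / 1000) :
    1000 * ((x : ℝ) * Wt) ≤ u * (rob x w : ℤ) := by
  have h1 : (x : ℝ) * (Wt - u * w) ≤ |(x : ℝ)| * (u * w / 1000) := by
    calc (x : ℝ) * (Wt - u * w) ≤ |(x : ℝ) * (Wt - u * w)| := le_abs_self _
      _ = |(x : ℝ)| * |Wt - u * w| := abs_mul _ _
      _ ≤ _ := mul_le_mul_of_nonneg_left hW (abs_nonneg _)
  have h2 : ((x.natAbs : ℤ) : ℝ) = |(x : ℝ)| := by
    rw [Int.natCast_natAbs, Int.cast_abs]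
  unfold rob
  push_cast
  nlinarith

theorem FF_vertex (d : ℕ) (hd : d ≤ 4) (W : ℕ → ℝ) (u : ℝ) (hu : 0 ≤ u)
    (hW : ∀ t ≤ d + 3, |W t - u * wn d t| ≤ u * wn d t / 1000) (a b : ℕ → ℤ) (p pp : ℕ)
    (h : val d p pp a b ≤ 0) : FF d W a b (p / 15) (pp / 15) ≤ 0 := by
  have h1 := FF_val d hd W a b p pp
  have h2 : 1000 * ∑ t ∈ Finset.range 8, ((coL d p a t + coL 0 pp b t : ℤ) : ℝ) * W t ≤
      u * (val d p pp a b : ℤ) := by
    have h3 : val d p pp a b = ∑ t ∈ Finset.range 8, rob (coL d p a t + coL 0 pp b t) (wn d t) := by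
      simp [val, sum8, Finset.sum_range_succ]
    rw [h3, Finset.mul_sum]
    push_cast
    rw [Finset.mul_sum]
    apply Finset.sum_le_sum
    intro t _
    by_cases ht : t ≤ d + 3
    · have := rob_le (x := coL d p a t + coL 0 pp b t) (hW t ht)
      push_cast at this ⊢
      exact this
    · push Not at ht
      rw [coL_zero ht, coL_zero (show 0 + 3 < t by omega)]
      simp [rob]
  have h4 : ((val d p pp a b : ℤ) : ℝ) ≤ 0 := by exact_mod_cast h
  nlinarith [mul_nonpos_of_nonneg_of_nonpos hu h4]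

theorem mul_le_ends {β x x0 x1 : ℝ} (h0 : x0 ≤ x) (h1 : x ≤ x1) :
    β * x ≤ β * x0 ∨ β * x ≤ β * x1 := by
  rcases le_total 0 β with h | h
  · exact Or.inr (mul_le_mul_of_nonneg_left h1 h)
  · exact Or.inl (mul_le_mul_of_nonpos_left h0 h)

theorem okF_sound (d ph ph2 : ℕ) (hd : d ≤ 4) (W : ℕ → ℝ) (u : ℝ) (hu : 0 ≤ u)
    (hW : ∀ t ≤ d + 3, |W t - u * wn d t| ≤ u * wn d t / 1000) (a b : ℕ → ℤ)
    (h : okF d ph ph2 a b = true) (x y : ℝ) (hx0 : (p0 ph : ℝ) / 15 ≤ x)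
    (hx1 : x ≤ (p1 ph : ℝ) / 15) (hy0 : (p0 ph2 : ℝ) / 15 ≤ y) (hy1 : y ≤ (p1 ph2 : ℝ) / 15)
    (hxy : d = 0 → ph = ph2 → y ≤ x) : FF d W a b x y ≤ 0 := by
  obtain ⟨α, β, γ, hF⟩ := FF_affine d W a b
  have hv := fun p pp => FF_vertex d hd W u hu hW a b p pp
  unfold okF at h
  simp only [Bool.and_eq_true, Bool.or_eq_true, decide_eq_true_eq] at h
  obtain ⟨⟨⟨h00, h10⟩, h11⟩, h01⟩ := h
  have e00 := hv _ _ h00
  have e10 := hv _ _ h10
  have e11 := hv _ _ h11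
  rw [hF] at e00 e10 e11 ⊢
  rcases h01 with ⟨hd0, hph⟩ | h01
  · have hd0' : d = 0 := Nat.eq_of_beq_eq_true hd0
    have hph' : ph = ph2 := Nat.eq_of_beq_eq_true hph
    subst hph'
    have hle := hxy hd0' rfl
    rcases le_total γ 0 with hγ | hγ
    · have h3 : γ * y ≤ γ * ((p0 ph : ℝ) / 15) := mul_le_mul_of_nonpos_left hy0 hγ
      rcases mul_le_ends (β := β) hx0 hx1 with h4 | h4 <;> linarith
    · have h3 : γ * y ≤ γ * x := mul_le_mul_of_nonneg_left hle hγ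
      rcases mul_le_ends (β := β + γ) hx0 hx1 with h4 | h4 <;> linarith
  · have e01 := hv _ _ h01
    rw [hF] at e01
    rcases mul_le_ends (β := β) hx0 hx1 with h4 | h4 <;>
      rcases mul_le_ends (β := γ) hy0 hy1 with h5 | h5 <;> linarith

/-- size on the side of `a'` of the family `i` relative to `k` -/
noncomputable def lamS (d : ℕ) (W : ℕ → ℝ) (y : ℝ) (i : ℕ) : ℝ := lamR 0 W y ((i + d) % 3)

/-- the linear form relative to `k` -/
noncomputable def GG (d : ℕ) (W : ℕ → ℝ) (a b : ℕ → ℤ) (x y : ℝ) : ℝ :=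
  (a 0 * lamR d W x 0 + a 1 * lamR d W x 1 + a 2 * lamR d W x 2) +
    (b 0 * lamS d W y 0 + b 1 * lamS d W y 1 + b 2 * lamS d W y 2)

theorem GG_eq (d : ℕ) (hd : d ≤ 4) (W : ℕ → ℝ) (a b : ℕ → ℤ) (x y : ℝ) :
    GG d W a b x y = FF d W a (sh d b) x y := by
  unfold GG FF lamS sh
  interval_cases d <;> norm_num <;> ring

theorem okG_sound (d ph ph2 : ℕ) (hd : d ≤ 4) (W : ℕ → ℝ) (u : ℝ) (hu : 0 ≤ u)
    (hW : ∀ t ≤ d + 3, |W t - u * wn d t| ≤ u * wn d t / 1000) (a b : ℕ → ℤ)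
    (h : okG d ph ph2 a b = true) (x y : ℝ) (hx0 : (p0 ph : ℝ) / 15 ≤ x)
    (hx1 : x ≤ (p1 ph : ℝ) / 15) (hy0 : (p0 ph2 : ℝ) / 15 ≤ y) (hy1 : y ≤ (p1 ph2 : ℝ) / 15)
    (hxy : d = 0 → ph = ph2 → y ≤ x) : GG d W a b x y ≤ 0 := by
  rw [GG_eq d hd]
  exact okF_sound d ph ph2 hd W u hu hW a _ h x y hx0 hx1 hy0 hy1 hxy

/-- first form of the alternative of a row -/
def Alt (d ph ph2 c c2 : ℕ) (W : ℕ → ℝ) (x y : ℝ) : Prop :=
  (∃ i < 3, fr ph c i = false ∧ fr2 d ph2 c2 i = false ∧ bit c i = true ∧ bit c2 i = false) ∨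
  (∃ i < 3, fr ph c i = false ∧ fr2 d ph2 c2 i = false ∧ bit c i = false ∧ bit c2 i = true ∧
    lamR d W x i ≤ 2 * lamS d W y i) ∨
  (∃ i < 3, fr ph c i = false ∧ fr2 d ph2 c2 i = false ∧ bit c i = false ∧ bit c2 i = false ∧
    st d i = true) ∨
  (GG d W (fun i => 2 - 200 * b2z (bit c i && !(fr ph c i)))
    (fun i => 198 - 200 * b2z (!(bit c i && !(fr ph c i)) && (bit c2 i && !(fr2 d ph2 c2 i))))
    x y ≤ 0) ∨
  (∃ e : ℕ, (∀ i < 3, okM (md e i) (fr ph c i) (fr2 d ph2 c2 i) = true ∧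
      (md e i = 7 → bit c i = false → bit c2 i = true → 2 * lamS d W y i ≤ lamR d W x i)) ∧
    ∀ top : Bool, GG d W (fa ph d ph2 c c2 e top) (fb ph d ph2 c c2 e top) x y ≤ 0)

theorem row_sound (d ph ph2 c c2 e : ℕ) (hd : d ≤ 4) (hrow : rowOK d ph ph2 c c2 e = true)
    (W : ℕ → ℝ) (u : ℝ) (hu : 0 ≤ u)
    (hW : ∀ t ≤ d + 3, |W t - u * wn d t| ≤ u * wn d t / 1000) (x y : ℝ)
    (hx0 : (p0 ph : ℝ) / 15 ≤ x) (hx1 : x ≤ (p1 ph : ℝ) / 15) (hy0 : (p0 ph2 : ℝ) / 15 ≤ y)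
    (hy1 : y ≤ (p1 ph2 : ℝ) / 15) (hxy : d = 0 → ph = ph2 → y ≤ x) :
    Alt d ph ph2 c c2 W x y := by
  have hG := fun a b h => okG_sound d ph ph2 hd W u hu hW a b h x y hx0 hx1 hy0 hy1 hxy
  have hv1 : ∀ i < 3, v1 d ph ph2 c c2 i = true → Alt d ph ph2 c c2 W x y := by
    intro i hi h
    unfold v1 nf at h
    simp only [Bool.and_eq_true, Bool.not_eq_true'] at h
    exact Or.inl ⟨i, hi, h.1.1.1, h.1.1.2, h.1.2, h.2⟩
  have hv2 : ∀ i < 3, v2 d ph ph2 c c2 i = true → Alt d ph ph2 c c2 W x y := by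
    intro i hi h
    unfold v2 nf at h
    simp only [Bool.and_eq_true, Bool.not_eq_true'] at h
    refine Or.inr (Or.inl ⟨i, hi, h.1.1.1.1, h.1.1.1.2, h.1.1.2, h.1.2, ?_⟩)
    have h1 := hG _ _ h.2
    unfold GG at h1
    interval_cases i <;> simp at h1 <;> linarith
  have hv3 : ∀ i < 3, v3 d ph ph2 c c2 i = true → Alt d ph ph2 c c2 W x y := by
    intro i hi h
    unfold v3 nf at h
    simp only [Bool.and_eq_true, Bool.not_eq_true'] at h
    exact Or.inr (Or.inr (Or.inl ⟨i, hi, h.1.1.1.1, h.1.1.1.2, h.1.1.2, h.1.2, h.2⟩))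
  have hv4 : v4 d ph ph2 c c2 = true → Alt d ph ph2 c c2 W x y := by
    intro h
    exact Or.inr (Or.inr (Or.inr (Or.inl (hG _ _ h))))
  have hI : ∀ i < 3, okI d ph ph2 c c2 e i = true →
      okM (md e i) (fr ph c i) (fr2 d ph2 c2 i) = true ∧
      (md e i = 7 → bit c i = false → bit c2 i = true → 2 * lamS d W y i ≤ lamR d W x i) := by
    intro i hi h
    unfold okI at h
    simp only [Bool.and_eq_true, Bool.or_eq_true, Bool.not_eq_true'] at h
    refine ⟨h.1, ?_⟩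
    intro h7 hb hb2
    rcases h.2 with ((h2 | h2) | h2) | h2
    · rw [h7] at h2
      exact absurd h2 (by decide)
    · rw [hb] at h2
      exact absurd h2 (by decide)
    · rw [hb2] at h2
      exact absurd h2 (by decide)
    · have h1 := hG _ _ h2
      unfold GG at h1
      interval_cases i <;> simp at h1 <;> linarith
  have hE : okE d ph ph2 c c2 e = true → Alt d ph ph2 c c2 W x y := by
    intro h
    unfold okE at h
    simp only [Bool.and_eq_true] at h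
    obtain ⟨⟨⟨⟨i0, i1⟩, i2⟩, g0⟩, g1⟩ := h
    refine Or.inr (Or.inr (Or.inr (Or.inr ⟨e, ?_, ?_⟩)))
    · intro i hi
      interval_cases i
      · exact hI 0 (by norm_num) i0
      · exact hI 1 (by norm_num) i1
      · exact hI 2 (by norm_num) i2
    · intro top
      cases top
      · exact hG _ _ g0
      · exact hG _ _ g1
  unfold rowOK at hrow
  simp only [Bool.or_eq_true] at hrow
  rcases hrow with ((((((h | h) | h) | ((h | h) | h)) | ((h | h) | h)) | h) | h)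
  · exact hv1 0 (by norm_num) h
  · exact hv1 1 (by norm_num) h
  · exact hv1 2 (by norm_num) h
  · exact hv2 0 (by norm_num) h
  · exact hv2 1 (by norm_num) h
  · exact hv2 2 (by norm_num) h
  · exact hv3 0 (by norm_num) h
  · exact hv3 1 (by norm_num) h
  · exact hv3 2 (by norm_num) h
  · exact hv4 h
  · exact hE h

/-- the rows of a block -/
theorem blk_row {d ph ph2 T : ℕ} (h : blk d ph ph2 T = true) {c c2 : ℕ} (hc : c < 8)
    (hc2 : c2 < 8) : ∃ e, rowOK d ph ph2 c c2 e = true := by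
  unfold blk at h
  rw [List.all_eq_true] at h
  have h1 := h (8 * c + c2) (List.mem_range.mpr (by omega))
  have e1 : (8 * c + c2) / 8 = c := by omega
  have e2 : (8 * c + c2) % 8 = c2 := by omega
  rw [e1, e2] at h1
  exact ⟨_, h1⟩

end Pool.Agent.Helper29.T4.Tab
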